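import Pool.Agent.H67.G4.Base5
import Pool.Agent.H96.G4.Five

/-!
# The region of the discharging exists

`star4_false`: the case of a 4-cycle with one inner real vertex; `exists_ctx`: a minimal
counterexample has a region `Ctx`.
-/

set_option autoImplicit false

namespace Pool.Agent.H67.G4

open Relation Pool.Agent.H13.DA Pool.Agent.H72.G4 Pool.Agent.H13.G4 Pool.Agent.H96.G4

variable {V : Type*} [DecidableEq V] {T : Finset (V × V × V)} {D : V → V → Prop} {a b c : V}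

theorem star4_false (hF : FanT V) (hM : MCw T D a b c) (hT : Ts T D a b c)
    {v z1 z2 z3 z4 : V} (h : Star4 T D a b c v z1 z2 z3 z4) : False := by
  have cT := hT.pl.disc.cx
  have r1 : Re D z1 := (ar_re ((h.ar z1).2 (Or.inl rfl))).2
  have r2 : Re D z2 := (ar_re ((h.ar z2).2 (Or.inr (Or.inl rfl)))).2
  have r3 : Re D z3 := (ar_re ((h.ar z3).2 (Or.inr (Or.inr (Or.inl rfl))))).2
  have r4 : Re D z4 := (ar_re ((h.ar z4).2 (Or.inr (Or.inr (Or.inr rfl))))).2
  exact red_four0 hF hM hT h.inn h.re (fun u hu => (h.ar u).1 hu)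
    (hT.re _ _ (Or.inl ⟨v, cT.rot h.f1⟩) r1 r2) (hT.re _ _ (Or.inl ⟨v, cT.rot h.f2⟩) r2 r3)
    (hT.re _ _ (Or.inl ⟨v, cT.rot h.f3⟩) r3 r4) (hT.re _ _ (Or.inl ⟨v, cT.rot h.f4⟩) r4 r1)

/-- **The region of the discharging exists.** -/
theorem exists_ctx [Infinite V] (hF : FanT V) (hM : MCw T D a b c) (hT : Ts T D a b c) :
    ∃ X Z, Ctx T X D a b c Z := by
  rcases ctx_cases hF hM hT with h | ⟨v, z1, z2, z3, z4, h⟩ |
    ⟨X, Z, w1, w2, h1, h2, h3, h4, ⟨h5, h6, h7⟩, ⟨h8, h9, h10⟩, h11⟩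
  · exact h
  · exact (star4_false hF hM hT h).elim
  · exact (base5 hF hM hT h1 h2 h3 h4 h5 h6 h7 h8 h9 h10 h11).elim

end Pool.Agent.H67.G4
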