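import Pool.Agent.H67.G4.Five2
import Pool.Agent.H72.G4.Class
import Pool.Agent.H21.G4.Tools
import Pool.Agent.H13.G4.Bdd

/-!
# A chordless 5-cycle with exactly two inner real vertices is impossible

`base5`: the base case of the lemma on 5-cycles.
-/

set_option autoImplicit false

namespace Pool.Agent.H67.G4

open Relation Pool.Agent.H13.DA Pool.Agent.H72.G4 Pool.Agent.H13.G4 Pool.Agent.H80.G4

variable {V : Type*} [DecidableEq V] {T X : Finset (V × V × V)} {D : V → V → Prop} {a b c : V}

/-- the region of a chordless 5-cycle `z` with the inner real vertices `w1`, `w2` -/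
structure Pen (T X : Finset (V × V × V)) (D : V → V → Prop) (a b c : V) (z : Fin 5 → V)
    (w1 w2 : V) : Prop where
  sub : X ⊆ T
  cX : IsCx X
  dir : ∀ i, Dir X (z i) (z (i + 1))
  ndir : ∀ i, ¬ Dir X (z (i + 1)) (z i)
  arc : ∀ i, Ar D (z i) (z (i + 1))
  chl : ∀ i, ¬ Ar D (z i) (z (i + 2))
  inj : Function.Injective z
  o1 : ∀ i, z i ≠ w1
  o2 : ∀ i, z i ≠ w2
  ne : w1 ≠ w2
  r1 : Re D w1
  r2 : Re D w2
  n1 : ¬ Tr a b c w1
  n2 : ¬ Tr a b c w2
  m1 : w1 ∈ verts X
  m2 : w2 ∈ verts X
  all : ∀ u, u ∈ verts X → Re D u → (∃ i, u = z i) ∨ u = w1 ∨ u = w2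
  inn : ∀ v x y, v ∈ verts X → (∀ i, v ≠ z i) → (v, x, y) ∈ T → (v, x, y) ∈ X
  lk : ∀ i d, ¬ Re D d → (z (i + 1), z (i + 2), d) ∈ X → (z (i + 1), d, z i) ∈ X →
    ∀ u, Adj X (z (i + 1)) u → u = z i ∨ u = d ∨ u = z (i + 2)

variable {z : Fin 5 → V} {w1 w2 : V}

theorem Pen.swap (h : Pen T X D a b c z w1 w2) : Pen T X D a b c z w2 w1 where
  sub := h.sub
  cX := h.cX
  dir := h.dir
  ndir := h.ndir
  arc := h.arc
  chl := h.chl
  inj := h.inj
  o1 := h.o2
  o2 := h.o1
  ne := h.ne.symm
  r1 := h.r2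
  r2 := h.r1
  n1 := h.n2
  n2 := h.n1
  m1 := h.m2
  m2 := h.m1
  all := fun u hu hr => by
    rcases h.all u hu hr with k | k | k
    · exact Or.inl k
    · exact Or.inr (Or.inr k)
    · exact Or.inr (Or.inl k)
  inn := h.inn
  lk := h.lk

theorem Pen.shift (h : Pen T X D a b c z w1 w2) (k : Fin 5) :
    Pen T X D a b c (fun i => z (k + i)) w1 w2 where
  sub := h.sub
  cX := h.cX
  dir := fun i => by
    have := h.dir (k + i)
    rwa [add_assoc] at this
  ndir := fun i => by
    have := h.ndir (k + i)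
    rwa [add_assoc] at this
  arc := fun i => by
    have := h.arc (k + i)
    rwa [add_assoc] at this
  chl := fun i => by
    have := h.chl (k + i)
    rwa [add_assoc] at this
  inj := fun i j hij => by simpa using h.inj hij
  o1 := fun i => h.o1 _
  o2 := fun i => h.o2 _
  ne := h.ne
  r1 := h.r1
  r2 := h.r2
  n1 := h.n1
  n2 := h.n2
  m1 := h.m1
  m2 := h.m2
  all := fun u hu hr => by
    rcases h.all u hu hr with ⟨i, k'⟩ | k' | k'
    · exact Or.inl ⟨i - k, by simpa using k'⟩
    · exact Or.inr (Or.inl k')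
    · exact Or.inr (Or.inr k')
  inn := fun v x y hv hz ht => h.inn v x y hv (fun i e => hz (i - k) (by simpa using e)) ht
  lk := fun i d hd h1 h2 u hu => by
    have := h.lk (k + i) d hd (by rwa [add_assoc, add_assoc]) (by rwa [add_assoc]) u
      (by rwa [add_assoc])
    rwa [add_assoc] at this

private theorem five (i j : Fin 5) : j = i ∨ j = i + 1 ∨ i = j + 1 ∨ j = i + 2 ∨ i = j + 2 := by
  revert i j
  decide

/-- adjacency on the ring -/
theorem Pen.ring (h : Pen T X D a b c z w1 w2) (hT : Ts T D a b c) {i j : Fin 5}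
    (hij : Ar D (z i) (z j)) : j = i + 1 ∨ i = j + 1 := by
  rcases five i j with k | k | k | k | k
  · subst k
    exact absurd rfl (ar_ne hT.pl.disc.cx hT.pl hij)
  · exact Or.inl k
  · exact Or.inr k
  · subst k
    exact absurd hij (h.chl i)
  · subst k
    exact absurd (ar_symm hij) (h.chl j)

/-- a real triangle at an inner vertex moves one step along the ring -/
theorem Pen.tri (h : Pen T X D a b c z w1 w2) (hT : Ts T D a b c) {i j : Fin 5}
    (ht : (w1, z i, z j) ∈ T) : j = i + 1 := by
  have cT := hT.pl.disc.cx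
  have hX := h.inn _ _ _ h.m1 (fun i e => h.o1 i e.symm) ht
  have hd : Dir X (z i) (z j) := ⟨w1, h.cX.rot hX⟩
  have hr : ∀ i, Re D (z i) := fun i => (ar_re (h.arc i)).1
  have har : Ar D (z i) (z j) := hT.re _ _ (Or.inl ⟨w1, cT.rot ht⟩) (hr i) (hr j)
  rcases h.ring hT har with k | k
  · exact k
  · subst k
    exact absurd hd (h.ndir j)

/-- the quad at a dummy: rotation -/
theorem quad_rot [Infinite V] (hT : Ts T D a b c) {v x y d : V} (hv : ¬ Tr a b c v)
    (hvr : Re D v) (h1 : (v, x, d) ∈ T) (h2 : (v, d, y) ∈ T) (hx : Re D x) (hy : Re D y)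
    (hd : ¬ Re D d) (hxy : x ≠ y) :
    ∃ o, Re D o ∧ o ≠ v ∧ ¬ Ar D v o ∧ (d, x, o) ∈ T ∧ (d, o, y) ∈ T ∧
      ((D x v ∧ D v y ∧ D y o ∧ D o x) ∨ (D v x ∧ D y v ∧ D x o ∧ D o y)) := by
  have cT := hT.pl.disc.cx
  have as := hT.pl.asymm
  have hdv : Adj T d v := Or.inl ⟨x, (rot3 cT h1).2⟩
  have hdx : Adj T d x := Or.inr ⟨v, cT.rot h1⟩
  have hdy : Adj T d y := Or.inl ⟨v, cT.rot h2⟩
  have avx : Ar D v x := hT.re _ _ (Or.inl ⟨d, h1⟩) hvr hx
  have avy : Ar D v y := hT.re _ _ (Or.inr ⟨d, (rot3 cT h2).2⟩) hvr hy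
  obtain ⟨s, t, o, q1, q2, q3, q4, q5, q6⟩ := H21.G4.quad_two hT hd hdv
  have nv : ∀ u, ¬ D u u := fun u hu => as u u hu hu
  -- `x`, `y` are `s`, `t`
  have hst : (x = s ∧ y = t) ∨ (x = t ∧ y = s) := by
    have e1 : x ≠ v := (ar_ne cT hT.pl avx).symm
    have e2 : y ≠ v := (ar_ne cT hT.pl avy).symm
    have e3 : x ≠ o := by
      rintro rfl
      exact q5 avx
    have e4 : y ≠ o := by
      rintro rfl
      exact q5 avy
    rcases q6 x hdx with k | k | k | k
    · rcases q6 y hdy with k' | k' | k' | k'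
      · exact absurd (k.trans k'.symm) hxy
      · exact absurd k' e2
      · exact Or.inl ⟨k, k'⟩
      · exact absurd k' e4
    · exact absurd k e1
    · rcases q6 y hdy with k' | k' | k' | k'
      · exact Or.inr ⟨k, k'⟩
      · exact absurd k' e2
      · exact absurd (k.trans k'.symm) hxy
      · exact absurd k' e4
    · exact absurd k e3
  have hor : Re D o := ⟨s, Or.inl q4⟩
  have hov : o ≠ v := by
    rintro rfl
    exact as _ _ q2 q3
  have nst : ¬ Ar D s t := by
    rintro (k | k)
    · exact hT.pl.tri _ _ _ k q3 q4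
    · exact hT.pl.tri _ _ _ q1 q2 k
  have nxy : ¬ Ar D x y := by
    rcases hst with ⟨rfl, rfl⟩ | ⟨rfl, rfl⟩
    · exact nst
    · exact fun k => nst (ar_symm k)
  have mem : ∀ p, Adj T d p → p = x ∨ p = v ∨ p = y ∨ p = o := by
    intro p hp
    rcases hst with ⟨rfl, rfl⟩ | ⟨rfl, rfl⟩
    · exact q6 p hp
    · rcases q6 p hp with k | k | k | k
      · exact Or.inr (Or.inr (Or.inl k))
      · exact Or.inr (Or.inl k)
      · exact Or.inl k
      · exact Or.inr (Or.inr (Or.inr k))
  -- the dummy is inner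
  have dl : d ∉ [a, b, c] := fun h => hd ((reg_self hT).re d h)
  have f1 : (d, v, x) ∈ T := (rot3 cT h1).2
  have f2 : (d, y, v) ∈ T := cT.rot h2
  obtain ⟨⟨p, hp⟩, _⟩ := inner_dir hT.pl.bd dl hdx
  have e1 : p = o := by
    have hdp : Adj T d p := Or.inr ⟨x, (rot3 cT hp).2⟩
    rcases mem p hdp with k | k | k | k
    · subst k
      exact absurd rfl (cx_ne cT hp).2.1
    · subst k
      -- `(d, x, v)` and `(d, y, v)` give `x = y`
      have g1 : (p, d, x) ∈ T := (rot3 cT hp).2
      exact absurd (cT.uniq g1 h2) hxy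
    · subst k
      exact absurd (hT.re _ _ (Or.inl ⟨d, cT.rot hp⟩) hx hy) nxy
    · exact k
  subst e1
  have hdo : Adj T d p := Or.inr ⟨x, (rot3 cT hp).2⟩
  obtain ⟨⟨r, hr⟩, _⟩ := inner_dir hT.pl.bd dl hdo
  have e2 : r = y := by
    have hdr : Adj T d r := Or.inr ⟨p, (rot3 cT hr).2⟩
    rcases mem r hdr with k | k | k | k
    · subst k
      -- `(d, p, x)` and `(v, x, d)`: both at the directed edge `x d`
      have g1 : (r, d, p) ∈ T := (rot3 cT hr).2
      have g2 : (r, d, v) ∈ T := cT.rot h1
      exact absurd (cT.uniq g1 g2) hov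
    · subst k
      exact absurd (ar_symm (hT.re _ _ (Or.inl ⟨d, cT.rot hr⟩) hor hvr)) q5
    · exact k
    · subst k
      exact absurd rfl (cx_ne cT hr).2.1
  subst e2
  refine ⟨p, hor, hov, q5, hp, hr, ?_⟩
  rcases hst with ⟨rfl, rfl⟩ | ⟨rfl, rfl⟩
  · exact Or.inl ⟨q1, q2, q3, q4⟩
  · exact Or.inr ⟨q2, q1, q3, q4⟩

/-- a quad corner between two ring vertices moves two steps along the ring; the vertex between
has no inner real neighbour -/
theorem Pen.quad [Infinite V] (h : Pen T X D a b c z w1 w2) (hT : Ts T D a b c)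
    (h12 : Ar D w1 w2) {i j : Fin 5} {d : V} (hd : ¬ Re D d) (h1 : (w1, z i, d) ∈ T)
    (h2 : (w1, d, z j) ∈ T) (hij : z i ≠ z j) :
    j = i + 2 ∧ ¬ Ar D w1 (z (i + 1)) ∧ ¬ Ar D w2 (z (i + 1)) := by
  have cT := hT.pl.disc.cx
  have hr : ∀ i, Re D (z i) := fun i => (ar_re (h.arc i)).1
  obtain ⟨o, o1, o2, o3, o4, o5, o6⟩ := quad_rot hT h.n1 h.r1 h1 h2 (hr i) (hr j) hd hij
  have hX1 := h.inn _ _ _ h.m1 (fun i e => h.o1 i e.symm) h1
  have dX : d ∈ verts X := vert3 h.cX hX1
  have dz : ∀ i, d ≠ z i := by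
    rintro i rfl
    exact hd (hr i)
  have g1 := h.inn _ _ _ dX dz o4
  have g2 := h.inn _ _ _ dX dz o5
  have oX : o ∈ verts X := vert3 h.cX g1
  have hm : ∃ m, o = z m := by
    rcases h.all o oX o1 with k | k | k
    · exact k
    · exact absurd k o2
    · subst k
      exact absurd h12 o3
  obtain ⟨m, rfl⟩ := hm
  have a1 : Ar D (z i) (z m) := hT.re _ _ (Or.inl ⟨d, cT.rot o4⟩) (hr i) (hr m)
  have a2 : Ar D (z m) (z j) := hT.re _ _ (Or.inl ⟨d, cT.rot o5⟩) (hr m) (hr j)
  have e1 : m = i + 1 := by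
    rcases h.ring hT a1 with k | k
    · exact k
    · subst k
      exact absurd ⟨d, h.cX.rot g1⟩ (h.ndir m)
  have e2 : j = m + 1 := by
    rcases h.ring hT a2 with k | k
    · exact k
    · subst k
      exact absurd ⟨d, h.cX.rot g2⟩ (h.ndir j)
  have e3 : j = i + 2 := by
    rw [e2, e1, add_assoc]
    rfl
  subst e1 e3
  have L := h.lk i d hd (h.cX.rot g2) (rot3 h.cX g1).2
  refine ⟨rfl, ?_, ?_⟩
  · intro har
    exact o3 har
  · intro har
    -- the edge `w2`, `z (i + 1)` is in `X`
    have hA : Adj T w2 (z (i + 1)) := hT.pl.ar_adj har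
    have n2l : w2 ∉ [a, b, c] := by
      intro k
      apply h.n2
      simpa [Tr] using k
    obtain ⟨⟨p, hp⟩, _⟩ := inner_dir hT.pl.bd n2l hA
    have hX := h.inn _ _ _ h.m2 (fun i e => h.o2 i e.symm) hp
    rcases L w2 (Or.inr ⟨p, hX⟩) with k | k | k
    · exact h.o2 _ k.symm
    · subst k
      exact hd h.r2
    · exact h.o2 _ k.symm

/-- a ring edge has one apex in `X` -/
theorem Pen.apex (h : Pen T X D a b c z w1 w2) (hT : Ts T D a b c) {i : Fin 5}
    (h1 : Ar D w1 (z i)) (h2 : Ar D w1 (z (i + 1))) : (z i, z (i + 1), w1) ∈ X := by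
  have cT := hT.pl.disc.cx
  rcases hT.fc w1 (z i) (z (i + 1)) (hT.pl.ar_adj h1) (hT.pl.ar_adj (h.arc i))
    (hT.pl.ar_adj (ar_symm h2)) with k | k
  · rcases k with k | k
    · exact h.cX.rot (h.inn _ _ _ h.m1 (fun i e => h.o1 i e.symm) k)
    · exact absurd ⟨w1, h.cX.rot (h.inn _ _ _ h.m1 (fun i e => h.o1 i e.symm) k)⟩ (h.ndir i)
  · exact absurd k.1 h.n1

theorem Pen.no_both (h : Pen T X D a b c z w1 w2) (hT : Ts T D a b c) {i : Fin 5}
    (h1 : Ar D w1 (z i)) (h2 : Ar D w1 (z (i + 1))) (h3 : Ar D w2 (z i))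
    (h4 : Ar D w2 (z (i + 1))) : False :=
  h.ne (h.cX.uniq (h.apex hT h1 h2) (h.swap.apex hT h3 h4))

/-- the neighbours of `w1` -/
theorem Pen.nb (h : Pen T X D a b c z w1 w2) (hT : Ts T D a b c) {u : V} (hu : Ar D w1 u) :
    u = w2 ∨ ∃ m, u = z m := by
  have n1l : w1 ∉ [a, b, c] := by
    intro k
    apply h.n1
    simpa [Tr] using k
  obtain ⟨⟨p, hp⟩, _⟩ := inner_dir hT.pl.bd n1l (hT.pl.ar_adj hu)
  have hX := h.inn _ _ _ h.m1 (fun i e => h.o1 i e.symm) hp
  rcases h.all u (vert2 h.cX hX) (ar_re hu).2 with k | k | k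
  · exact Or.inr k
  · exact absurd k.symm (ar_ne hT.pl.disc.cx hT.pl hu)
  · exact Or.inl k

/-- the corners of `w1` between ring vertices -/
theorem Pen.step [Infinite V] (h : Pen T X D a b c z w1 w2) (hT : Ts T D a b c)
    (h12 : Ar D w1 w2) {i j : Fin 5} {t : CT} (hc : Cor T D w1 (z i) (z j) t)
    (hij : z i ≠ z j) :
    j = i + 1 ∨ (j = i + 2 ∧ ¬ Ar D w1 (z (i + 1)) ∧ ¬ Ar D w2 (z (i + 1))) := by
  by_cases ht : t = CT.q
  · subst ht
    obtain ⟨⟨d, d1, d2, d3⟩, _⟩ := hc
    exact Or.inr (h.quad hT h12 d1 d2 d3 hij)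
  · exact Or.inl (h.tri hT (hc.ne_mid ht))

/-- the quad corner at `w1` between `w2` and a ring vertex -/
theorem Pen.cq [Infinite V] (h : Pen T X D a b c z w1 w2) (hT : Ts T D a b c)
    (h12 : Ar D w1 w2) {x y d : V} (h1 : (w1, x, d) ∈ T) (h2 : (w1, d, y) ∈ T)
    (hx : Re D x) (hy : Re D y) (hd : ¬ Re D d) (hxy : x ≠ y) :
    ∃ m, Ar D x (z m) ∧ Ar D (z m) y ∧
      ((D x w1 ∧ D w1 y ∧ D y (z m) ∧ D (z m) x) ∨
        (D w1 x ∧ D y w1 ∧ D x (z m) ∧ D (z m) y)) := by
  have cT := hT.pl.disc.cx
  obtain ⟨o, o1, o2, o3, o4, o5, o6⟩ := quad_rot hT h.n1 h.r1 h1 h2 hx hy hd hxy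
  have hX1 := h.inn _ _ _ h.m1 (fun i e => h.o1 i e.symm) h1
  have dX : d ∈ verts X := vert3 h.cX hX1
  have dz : ∀ i, d ≠ z i := by
    rintro i rfl
    exact hd (ar_re (h.arc i)).1
  have g1 := h.inn _ _ _ dX dz o4
  have oX : o ∈ verts X := vert3 h.cX g1
  have hm : ∃ m, o = z m := by
    rcases h.all o oX o1 with k | k | k
    · exact k
    · exact absurd k o2
    · subst k
      exact absurd h12 o3
  obtain ⟨m, rfl⟩ := hm
  refine ⟨m, ?_, ?_, o6⟩
  · exact hT.re _ _ (Or.inl ⟨d, cT.rot o4⟩) hx o1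
  · exact hT.re _ _ (Or.inl ⟨d, cT.rot o5⟩) o1 hy

private theorem rot_nb {v : V} {x : Fin 4 → V} {w : Fin 4 → CT} (h : Rot T D v 3 x w) {u : V}
    (hu : Ar D v u) : u = x 0 ∨ u = x 1 ∨ u = x 2 ∨ u = x 3 := by
  obtain ⟨i, rfl⟩ := (h.nb u).1 hu
  fin_cases i
  · exact Or.inl rfl
  · exact Or.inr (Or.inl rfl)
  · exact Or.inr (Or.inr (Or.inl rfl))
  · exact Or.inr (Or.inr (Or.inr rfl))

/-- four neighbours at `w1`, in order `w2`, `z 0`, .. -/
private theorem Pen.main1 [Infinite V] (hF : FanT V) (hM : MCw T D a b c) (hT : Ts T D a b c)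
    (h : Pen T X D a b c z w1 w2) (h12 : Ar D w1 w2) {x : Fin 4 → V} {w : Fin 4 → CT}
    (hR : Rot T D w1 3 x w) (x0 : x 0 = w2) (x1 : x 1 = z 0) : False := by
  have cT := hT.pl.disc.cx
  have hne : ∀ {i j : Fin 4}, i ≠ j → x i ≠ x j := fun hij e => hij (hR.inj e)
  have zne : ∀ {i j : Fin 5}, i ≠ j → z i ≠ z j := fun hij e => hij (h.inj e)
  have arx : ∀ i, Ar D w1 (x i) := fun i => (hR.nb _).2 ⟨i, rfl⟩
  have ring : ∀ i, i ≠ 0 → ∃ m, x i = z m := by
    intro i hi
    rcases h.nb hT (arx i) with k | k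
    · exact absurd (k.trans x0.symm) (hne hi)
    · exact k
  obtain ⟨j, hj⟩ := ring 2 (by decide)
  obtain ⟨k, hk⟩ := ring 3 (by decide)
  have c0 : Cor T D w1 (x 0) (x 1) (w 0) := hR.cor 0
  have c1 : Cor T D w1 (x 1) (x 2) (w 1) := hR.cor 1
  have c2 : Cor T D w1 (x 2) (x 3) (w 2) := hR.cor 2
  have c3 : Cor T D w1 (x 3) (x 0) (w 3) := hR.cor 3
  have n12 : x 1 ≠ x 2 := hne (by decide)
  have n23 : x 2 ≠ x 3 := hne (by decide)
  -- the middle neighbour is not adjacent to `w2`
  have b2 : ¬ Ar D w2 (x 2) := by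
    intro har
    rcases hT.fc w1 w2 (x 2) (hT.pl.ar_adj h12) (hT.pl.ar_adj har)
      (hT.pl.ar_adj (ar_symm (arx 2))) with (q | q) | q
    · rw [← x0] at q
      have := (hR.nx 0 (x 2) (ar_re (arx 2)).2 q).1
      exact hne (i := 2) (j := 0 + 1) (by decide) this
    · have := (hR.nx 2 w2 h.r2 q).1
      rw [← x0] at this
      exact hne (i := 0) (j := 2 + 1) (by decide) this
    · exact h.n1 q.1
  have N1 : ∀ u, Ar D w1 u → u = w2 ∨ u = z 0 ∨ u = x 2 ∨ u = x 3 := by
    intro u hu
    have := rot_nb hR hu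
    rwa [x0, x1] at this
  have N2 : ∀ u, Ar D w2 u → u = w1 ∨ ∃ m, u = z m := fun u hu => h.swap.nb hT hu
  have a0 : Ar D w1 (z 0) := x1 ▸ arx 1
  have a3 := arx 3
  have a2 := arx 2
  rw [x1] at c0 c1 n12
  rw [x0] at c0 c3
  rw [hj] at c1 c2 n12 n23 b2 N1 a2
  rw [hk] at c2 c3 n23 N1 a3
  have s1 := h.step hT h12 c1 n12
  have s2 := h.step hT h12 c2 n23
  -- the case in which `w2` has its neighbours on `w1`, `z 3`, `z 4`, `z 0`
  have F : Ar D w1 (z 3) → ¬ Ar D w2 (z 1) → ¬ Ar D w2 (z 2) → False := by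
    intro q3 q1 q2
    refine red_four0 hF hM hT (v := w2) (z0 := w1) (z1 := z 3) (z2 := z 4) (z3 := z 0) h.n2
      h.r2 ?_ q3 (h.arc 3) (h.arc 4) (ar_symm a0)
    intro u hu
    rcases N2 u hu with e | ⟨m, rfl⟩
    · exact Or.inl e
    · fin_cases m
      · exact Or.inr (Or.inr (Or.inr rfl))
      · exact absurd hu q1
      · exact absurd hu q2
      · exact Or.inr (Or.inl rfl)
      · exact Or.inr (Or.inr (Or.inl rfl))
  rcases s1 with e1 | ⟨e1, -, f1⟩
  · have e1 : j = 1 := e1
    subst e1
    rcases s2 with e2 | ⟨e2, -, f2⟩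
    · have e2 : k = 2 := e2
      subst e2
      -- `w1 ~ z 0, z 1, z 2`
      have D3 : ∀ {p q : V}, (∀ u, Ar D w2 u → u = w1 ∨ u = p ∨ u = q) → False := fun hu =>
        red_deg3 hF hM hT h.n2 h.r2 hu
      by_cases b0 : Ar D w2 (z 0)
      · by_cases b2' : Ar D w2 (z 2)
        · exact red_four0 hF hM hT h.n1 h.r1 N1 b0 (h.arc 0) (h.arc 1) (ar_symm b2')
        · -- quad at the corner `z 2`, `w2`
          have N2' : ∀ u, Ar D w2 u → u = w1 ∨ u = z 0 ∨ u = z 4 ∨ u = z 3 := by
            intro u hu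
            rcases N2 u hu with e | ⟨m, rfl⟩
            · exact Or.inl e
            · fin_cases m
              · exact Or.inr (Or.inl rfl)
              · exact absurd hu b2
              · exact absurd hu b2'
              · exact Or.inr (Or.inr (Or.inr rfl))
              · exact Or.inr (Or.inr (Or.inl rfl))
          have b4 : Ar D w2 (z 4) := by
            by_contra hc
            refine D3 (p := z 0) (q := z 3) fun u hu => ?_
            rcases N2' u hu with e | e | e | e
            · exact Or.inl e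
            · exact Or.inr (Or.inl e)
            · exact absurd (e ▸ hu) hc
            · exact Or.inr (Or.inr e)
          by_cases ht : w 3 = CT.q
          · rw [ht] at c3
            obtain ⟨⟨d, d1, d2, d3⟩, _⟩ := c3
            obtain ⟨m, m1, m2, m3⟩ := h.cq hT h12 d2 d3 (ar_re (h.arc 2)).1 h.r2 d1 (h.o2 2)
            have em : m = 3 := by
              rcases h.ring hT m1 with q | q
              · exact q
              · exfalso
                have : m = 1 := by
                  have : (2 : Fin 5) = m + 1 := q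
                  revert this
                  fin_cases m <;> decide
                subst this
                exact b2 (ar_symm m2)
            subst em
            refine red_five2 hF hM hT h.n1 h.n2 (z0 := z 0) (z1 := z 1) (z2 := z 2)
              (z3 := z 3) (z4 := z 4) ?_ ?_
            · exact
                { d1 := ⟨zne (by decide), zne (by decide), h.o2 2, h.o1 2, zne (by decide),
                    h.o2 1, h.o1 1, h.o2 0, h.o1 0, h.ne.symm⟩
                  d2 := ⟨(h.o1 0).symm, (h.o1 4).symm, (h.o1 3).symm, h.ne, zne (by decide),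
                    zne (by decide), h.o2 0, zne (by decide), h.o2 4, h.o2 3⟩
                  e23 := zne (by decide)
                  e24 := zne (by decide)
                  e13 := zne (by decide)
                  e14 := zne (by decide)
                  n1 := fun u hu => by
                    have := N1 u hu
                    tauto
                  n2 := N2'
                  w1z1 := ar_symm a2
                  w1z0 := ar_symm a0
                  w2z0 := ar_symm b0
                  w2z4 := ar_symm b4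
                  r01 := h.arc 0
                  r12 := h.arc 1
                  r34 := h.arc 3
                  r40 := h.arc 4
                  c02 := h.chl 0
                  c13 := h.chl 1
                  c24 := h.chl 2
                  c30 := h.chl 3
                  c41 := h.chl 4 }
            · rcases m3 with ⟨q1, q2, q3, q4⟩ | ⟨q1, q2, q3, q4⟩
              · exact Or.inl ⟨q2, q3, q1⟩
              · exact Or.inr ⟨q2, q4, q1⟩
          · have q := c3.ne_mid ht
            exact b2' (hT.re _ _ (Or.inr ⟨w1, cT.rot q⟩) h.r2 (ar_re (h.arc 2)).1)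
      · -- quad at the corner `w2`, `z 0`
        have N2' : ∀ u, Ar D w2 u → u = w1 ∨ u = z 2 ∨ u = z 3 ∨ u = z 4 := by
          intro u hu
          rcases N2 u hu with e | ⟨m, rfl⟩
          · exact Or.inl e
          · fin_cases m
            · exact absurd hu b0
            · exact absurd hu b2
            · exact Or.inr (Or.inl rfl)
            · exact Or.inr (Or.inr (Or.inl rfl))
            · exact Or.inr (Or.inr (Or.inr rfl))
        have b2' : Ar D w2 (z 2) := by
          by_contra hc
          refine D3 (p := z 3) (q := z 4) fun u hu => ?_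
          rcases N2' u hu with e | e | e | e
          · exact Or.inl e
          · exact absurd (e ▸ hu) hc
          · exact Or.inr (Or.inl e)
          · exact Or.inr (Or.inr e)
        have b3 : Ar D w2 (z 3) := by
          by_contra hc
          refine D3 (p := z 2) (q := z 4) fun u hu => ?_
          rcases N2' u hu with e | e | e | e
          · exact Or.inl e
          · exact Or.inr (Or.inl e)
          · exact absurd (e ▸ hu) hc
          · exact Or.inr (Or.inr e)
        by_cases ht : w 0 = CT.q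
        · rw [ht] at c0
          obtain ⟨⟨d, d1, d2, d3⟩, _⟩ := c0
          obtain ⟨m, m1, m2, m3⟩ := h.cq hT h12 d2 d3 h.r2 (ar_re (h.arc 0)).1 d1
            (h.o2 0).symm
          have em : m = 4 := by
            rcases h.ring hT m2 with q | q
            · have : (0 : Fin 5) = m + 1 := q
              revert this
              fin_cases m <;> decide
            · exfalso
              have : m = 1 := q
              subst this
              exact b2 m1
          subst em
          refine red_five2 hF hM hT h.n1 h.n2 (z0 := z 2) (z1 := z 1) (z2 := z 0)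
            (z3 := z 4) (z4 := z 3) ?_ ?_
          · exact
              { d1 := ⟨zne (by decide), zne (by decide), h.o2 0, h.o1 0, zne (by decide),
                  h.o2 1, h.o1 1, h.o2 2, h.o1 2, h.ne.symm⟩
                d2 := ⟨(h.o1 2).symm, (h.o1 3).symm, (h.o1 4).symm, h.ne, zne (by decide),
                  zne (by decide), h.o2 2, zne (by decide), h.o2 3, h.o2 4⟩
                e23 := zne (by decide)
                e24 := zne (by decide)
                e13 := zne (by decide)
                e14 := zne (by decide)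
                n1 := fun u hu => by
                  have := N1 u hu
                  tauto
                n2 := N2'
                w1z1 := ar_symm a2
                w1z0 := ar_symm a3
                w2z0 := ar_symm b2'
                w2z4 := ar_symm b3
                r01 := ar_symm (h.arc 1)
                r12 := ar_symm (h.arc 0)
                r34 := ar_symm (h.arc 3)
                r40 := ar_symm (h.arc 2)
                c02 := fun q => h.chl 0 (ar_symm q)
                c13 := fun q => h.chl 4 (ar_symm q)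
                c24 := fun q => h.chl 3 (ar_symm q)
                c30 := fun q => h.chl 2 (ar_symm q)
                c41 := fun q => h.chl 1 (ar_symm q) }
          · rcases m3 with ⟨q1, q2, q3, q4⟩ | ⟨q1, q2, q3, q4⟩
            · exact Or.inr ⟨q1, q4, q2⟩
            · exact Or.inl ⟨q1, q3, q2⟩
        · have q := c0.ne_mid ht
          exact b0 (hT.re _ _ (Or.inl ⟨w1, cT.rot q⟩) h.r2 (ar_re (h.arc 0)).1)
    · have e2 : k = 3 := e2
      subst e2
      exact F a3 b2 f2
  · have e1 : j = 2 := e1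
    subst e1
    rcases s2 with e2 | ⟨e2, -, f2⟩
    · have e2 : k = 3 := e2
      subst e2
      exact F a3 f1 b2
    · have e2 : k = 4 := e2
      subst e2
      refine red_deg3 hF hM hT h.n2 h.r2 (x := w1) (y := z 0) (z := z 4) fun u hu => ?_
      rcases N2 u hu with e | ⟨m, rfl⟩
      · exact Or.inl e
      · fin_cases m
        · exact Or.inr (Or.inl rfl)
        · exact absurd hu f1
        · exact absurd hu b2
        · exact absurd hu f2
        · exact Or.inr (Or.inr rfl)

/-- four neighbours at `w1` -/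
private theorem Pen.main0 [Infinite V] (hF : FanT V) (hM : MCw T D a b c) (hT : Ts T D a b c)
    (h : Pen T X D a b c z w1 w2) (h12 : Ar D w1 w2) {x : Fin 4 → V} {w : Fin 4 → CT}
    (hR : Rot T D w1 3 x w) : False := by
  obtain ⟨i, hi⟩ := (hR.nb w2).1 h12
  have hR' := hR.shift i
  have e0 : (fun k => x (i + k)) 0 = w2 := by
    simp only [add_zero]
    exact hi.symm
  have a1 : Ar D w1 ((fun k => x (i + k)) 1) := (hR'.nb _).2 ⟨1, rfl⟩
  rcases h.nb hT a1 with k | ⟨m, k⟩
  · have := hR'.inj (k.trans e0.symm)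
    exact absurd this (by decide)
  · refine Pen.main1 hF hM hT (h.shift m) h12 hR' e0 ?_
    simp only [add_zero]
    exact k

private theorem rot_deg (hF : FanT V) (hM : MCw T D a b c) (hT : Ts T D a b c) {v : V}
    (hv : ¬ Tr a b c v) (hvr : Re D v) {n : ℕ} {x : Fin (n + 1) → V} {w : Fin (n + 1) → CT}
    (hR : Rot T D v n x w) : 3 ≤ n := by
  by_contra hc
  have hn : n = 0 ∨ n = 1 ∨ n = 2 := by omega
  rcases hn with rfl | rfl | rfl
  · refine red_deg3 hF hM hT hv hvr (x := x 0) (y := x 0) (z := x 0) fun u hu => ?_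
    obtain ⟨i, rfl⟩ := (hR.nb u).1 hu
    fin_cases i
    exact Or.inl rfl
  · refine red_deg3 hF hM hT hv hvr (x := x 0) (y := x 1) (z := x 0) fun u hu => ?_
    obtain ⟨i, rfl⟩ := (hR.nb u).1 hu
    fin_cases i
    · exact Or.inl rfl
    · exact Or.inr (Or.inl rfl)
  · refine red_deg3 hF hM hT hv hvr (x := x 0) (y := x 1) (z := x 2) fun u hu => ?_
    obtain ⟨i, rfl⟩ := (hR.nb u).1 hu
    fin_cases i
    · exact Or.inl rfl
    · exact Or.inr (Or.inl rfl)
    · exact Or.inr (Or.inr rfl)

open Classical in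
private theorem Pen.card (h : Pen T X D a b c z w1 w2) (hT : Ts T D a b c) {n : ℕ}
    {x : Fin (n + 1) → V} {w : Fin (n + 1) → CT} (hR : Rot T D w1 n x w) :
    n ≤ (Finset.univ.filter fun m => Ar D w1 (z m)).card ∧
      (¬ Ar D w1 w2 → n + 1 ≤ (Finset.univ.filter fun m => Ar D w1 (z m)).card) := by
  have hc : (Finset.univ.image x).card = n + 1 := by
    rw [Finset.card_image_of_injective _ hR.inj]
    simp
  have hz : ((Finset.univ.filter fun m => Ar D w1 (z m)).image z).card ≤
      (Finset.univ.filter fun m => Ar D w1 (z m)).card := Finset.card_image_le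
  constructor
  · have hs : Finset.univ.image x ⊆
        insert w2 ((Finset.univ.filter fun m => Ar D w1 (z m)).image z) := by
      intro u hu
      obtain ⟨i, _, rfl⟩ := Finset.mem_image.1 hu
      have har : Ar D w1 (x i) := (hR.nb _).2 ⟨i, rfl⟩
      rcases h.nb hT har with k | ⟨m, k⟩
      · exact Finset.mem_insert.2 (Or.inl k)
      · rw [k]
        refine Finset.mem_insert.2 (Or.inr (Finset.mem_image.2 ⟨m, ?_, rfl⟩))
        rw [k] at har
        exact Finset.mem_filter.2 ⟨Finset.mem_univ _, har⟩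
    have h1 := Finset.card_le_card hs
    have h2 := Finset.card_insert_le w2
      ((Finset.univ.filter fun m => Ar D w1 (z m)).image z)
    omega
  · intro hn
    have hs : Finset.univ.image x ⊆ (Finset.univ.filter fun m => Ar D w1 (z m)).image z := by
      intro u hu
      obtain ⟨i, _, rfl⟩ := Finset.mem_image.1 hu
      have har : Ar D w1 (x i) := (hR.nb _).2 ⟨i, rfl⟩
      rcases h.nb hT har with k | ⟨m, k⟩
      · exact absurd (k ▸ har) hn
      · rw [k]
        refine Finset.mem_image.2 ⟨m, ?_, rfl⟩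
        rw [k] at har
        exact Finset.mem_filter.2 ⟨Finset.mem_univ _, har⟩
    have h1 := Finset.card_le_card hs
    omega

private theorem two_sets : ∀ S S' : Finset (Fin 5), 4 ≤ S.card → 4 ≤ S'.card →
    ∃ m, m ∈ S ∧ m + 1 ∈ S ∧ m ∈ S' ∧ m + 1 ∈ S' := by
  decide +kernel

theorem Pen.false [Infinite V] (hF : FanT V) (hM : MCw T D a b c) (hT : Ts T D a b c)
    (h : Pen T X D a b c z w1 w2) : False := by
  classical
  obtain ⟨n, x, w, hx⟩ := exists_rot hT h.n1 h.r1
  obtain ⟨n', y, w', hy⟩ := exists_rot hT h.n2 h.r2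
  have d1 := rot_deg hF hM hT h.n1 h.r1 hx
  have d2 := rot_deg hF hM hT h.n2 h.r2 hy
  obtain ⟨k1, k2⟩ := h.card hT hx
  obtain ⟨m1, m2⟩ := h.swap.card hT hy
  have key : 4 ≤ (Finset.univ.filter fun m => Ar D w1 (z m)).card →
      4 ≤ (Finset.univ.filter fun m => Ar D w2 (z m)).card → False := by
    intro q1 q2
    obtain ⟨m, s1, s2, s3, s4⟩ := two_sets _ _ q1 q2
    exact h.no_both hT (Finset.mem_filter.1 s1).2 (Finset.mem_filter.1 s2).2
      (Finset.mem_filter.1 s3).2 (Finset.mem_filter.1 s4).2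
  by_cases h12 : Ar D w1 w2
  · by_cases e1 : n = 3
    · subst e1
      exact Pen.main0 hF hM hT h h12 hx
    · by_cases e2 : n' = 3
      · subst e2
        exact Pen.main0 hF hM hT h.swap (ar_symm h12) hy
      · exact key (by omega) (by omega)
  · have := k2 h12
    have := m2 fun q => h12 (ar_symm q)
    exact key (by omega) (by omega)

/-- **Base case**: a chordless real 5-cycle with exactly two real vertices inside does not
exist. -/
theorem base5 [Infinite V] (hF : FanT V) (hM : MCw T D a b c) (hT : Ts T D a b c)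
    {Z : List V} (hR : Reg T X D Z) (hZ : Chl D Z) (h5 : Z.length = 5) {w1 w2 : V}
    (hne : w1 ≠ w2) (m1 : w1 ∈ verts X) (r1 : Re D w1) (z1 : w1 ∉ Z) (m2 : w2 ∈ verts X)
    (r2 : Re D w2) (z2 : w2 ∉ Z)
    (hall : ∀ u, u ∈ verts X → Re D u → u ∉ Z → u = w1 ∨ u = w2) : False := by
  have nd := hR.bd.nodup
  let z : Fin 5 → V := fun i => Z[i.val]'(by have := i.isLt; omega)
  have hmem : ∀ i, z i ∈ Z := fun i => List.getElem_mem _
  have hcyc : ∀ i, Cyc Z (z i) (z (i + 1)) := fun i => cyc_getElem Z 4 h5 i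
  have hinj : Function.Injective z := by
    intro i j hij
    exact Fin.ext ((List.Nodup.getElem_inj_iff nd).1 hij)
  have hz : ∀ u, u ∈ Z → ∃ i, u = z i := by
    intro u hu
    obtain ⟨i, hi, hi2⟩ := List.getElem_of_mem hu
    exact ⟨⟨i, by omega⟩, hi2.symm⟩
  refine Pen.false hF hM hT (X := X) (z := z) (w1 := w1) (w2 := w2) ?_
  refine
    { sub := hR.sub
      cX := hR.disc.cx
      dir := fun i => (bd_cyc hR.bd (hcyc i)).1
      ndir := fun i => (bd_cyc hR.bd (hcyc i)).2
      arc := fun i => hZ.arc _ _ (hcyc i)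
      chl := ?_
      inj := hinj
      o1 := fun i e => z1 (e ▸ hmem i)
      o2 := fun i e => z2 (e ▸ hmem i)
      ne := hne
      r1 := r1
      r2 := r2
      n1 := hR.inner hT m1 z1
      n2 := hR.inner hT m2 z2
      m1 := m1
      m2 := m2
      all := ?_
      inn := fun v x y hv hvz ht => hR.tri_in hv (fun k => by
        obtain ⟨i, e⟩ := hz v k
        exact hvz i e) ht
      lk := ?_ }
  · intro i har
    rcases hZ.ch _ _ (hmem _) (hmem _) har with k | k
    · have := hinj (cyc_unique nd k (hcyc i))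
      revert this
      clear * -
      revert i
      decide
    · have := hinj (cyc_unique nd k (hcyc (i + 2)))
      revert this
      clear * -
      revert i
      decide
  · intro u hu hur
    by_cases k : u ∈ Z
    · exact Or.inl (hz u k)
    · exact Or.inr (hall u hu hur k)
  · intro i d hd g1 g2 u hu
    have c1 : Cyc Z (z (i + 1)) (z (i + 2)) := by
      have := hcyc (i + 1)
      rwa [add_assoc] at this
    obtain ⟨m, l1, l2, l3, l4⟩ := link_bd hR.disc hR.bd c1 (hcyc i)
    have hdr : ∀ j, d ≠ z j := by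
      rintro j rfl
      exact hd (hR.re _ (hmem j))
    have k1 := (l3 _ _).1 g1
    have k2 := (l3 _ _).1 g2
    have hu' := (l4 u).1 hu
    cases m with
    | nil =>
      rcases k1 with ⟨_, k1⟩ | k1
      · exact absurd k1 (hdr _)
      · exact k1.elim
    | cons m0 m' =>
      have e0 : d = m0 := by
        rcases k1 with ⟨_, k1⟩ | k1
        · exact k1
        · exfalso
          have := (nx_mem k1).1
          simp only [List.cons_append, List.nodup_cons] at l1
          exact l1.1 this
      subst e0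
      cases m' with
      | nil =>
        simp only [List.cons_append, List.nil_append, List.mem_cons, List.not_mem_nil,
          or_false] at hu'
        tauto
      | cons m1' m'' =>
        exfalso
        simp only [List.cons_append, List.nodup_cons, List.mem_cons, List.mem_append,
          List.not_mem_nil, or_false, not_or] at l1
        rcases k2 with ⟨k2, _⟩ | k2
        · exact hdr _ k2
        · rcases k2 with ⟨_, k2⟩ | k2
          · exact l1.2.2.1.2 k2.symm
          · have : d ∈ m1' :: (m'' ++ [z i]) := (nx_mem k2).1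
            simp only [List.mem_cons, List.mem_append, List.not_mem_nil, or_false] at this
            tauto

end Pool.Agent.H67.G4
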