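import Pool.Agent.H67.G4.Rob

/-!
# The 5-cycle with two inner vertices and a quad

`red_five2`: the ring `z0, ..., z4`, the inner vertices `w1 ~ z0, z1, z2, w2` and
`w2 ~ z3, z4, z0, w1`, the directed quad `w1 w2 z3 z2`, the ring without chords.
-/

set_option autoImplicit false

namespace Pool.Agent.H67.G4

open Relation Pool.Agent.H13.DA Pool.Agent.H72.G4 Pool.Agent.H55.G4 Pool.Agent.H42.G4
  Pool.Agent.H80.G4

variable {V : Type*} [DecidableEq V] {T : Finset (V × V × V)} {D : V → V → Prop} {a b c : V}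

/-- **C4 without `Good`**: link `x1` in, `x2`, `x3`, `x4` out; `x1 > x2`, `x3 > x2`, `x4 > x3`;
no directed path `x3 > o > x1` or `x1 > o > x4` off `v`. -/
theorem red_C4' (hF : FanT V) (hM : MCw T D a b c) (hT : Ts T D a b c) {v x1 x2 x3 x4 : V}
    (hv : ¬ Tr a b c v) (hd : Ds x1 x2 x3 x4 v)
    (hN : ∀ u, Ar D v u → u = x1 ∨ u = x2 ∨ u = x3 ∨ u = x4)
    (d1 : D x1 v) (d2 : D v x2) (d3 : D v x3) (d4 : D v x4) (r12 : D x1 x2) (r32 : D x3 x2)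
    (r43 : D x4 x3) (n13 : ¬ Ar D x1 x3) (n14 : ¬ Ar D x1 x4)
    (key1 : ∀ o, o ≠ v → D x3 o → D o x1 → False)
    (key2 : ∀ o, o ≠ v → D x1 o → D o x4 → False) : False := by
  have as := hT.pl.asymm
  have tri := hT.pl.tri
  obtain ⟨e12, e13, e14, e1, e23, e24, e2, e34, e3, e4⟩ := hd
  have hin : ∀ x, D x v → x = x1 := by
    intro x hx
    rcases hN x (Or.inr hx) with rfl | rfl | rfl | rfl
    · rfl
    · exact absurd hx (as _ _ d2)
    · exact absurd hx (as _ _ d3)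
    · exact absurd hx (as _ _ d4)
  have hout : ∀ x, D v x → x = x2 ∨ x = x3 ∨ x = x4 := by
    intro x hx
    rcases hN x (Or.inl hx) with rfl | rfl | rfl | rfl
    · exact absurd hx (as _ _ d1)
    · exact Or.inl rfl
    · exact Or.inr (Or.inl rfl)
    · exact Or.inr (Or.inr rfl)
  let A : V → V → Prop := fun x y => (x = x1 ∧ y = x3) ∨ (x = x4 ∧ y = x1)
  have nA : ∀ x y, A x y → ¬ Ar D x y := by
    rintro x y (⟨rfl, rfl⟩ | ⟨rfl, rfl⟩)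
    · exact n13
    · exact fun h => n14 (ar_symm h)
  refine del_fill hF hM hT (v := v) (p := x1) (A := A) hv ⟨x1, Or.inr d1⟩ (Or.inr d1)
    ?_ ?_ ?_ ?_
  · rintro x y (⟨rfl, rfl⟩ | ⟨rfl, rfl⟩)
    · exact Or.inl ⟨rfl, Or.inl d3, e13.symm⟩
    · exact Or.inr ⟨rfl, Or.inl d4, e14.symm⟩
  · rintro x y (h | h) (h' | h')
    · exact as _ _ h.1 h'.1
    · exact nA _ _ h' (Or.inr h.1)
    · exact nA _ _ h (Or.inr h'.1)
    · rcases h with ⟨rfl, rfl⟩ | ⟨rfl, rfl⟩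
      · rcases h' with ⟨h, -⟩ | ⟨h, -⟩
        · exact e13 h.symm
        · exact e34 h
      · rcases h' with ⟨-, h⟩ | ⟨h, -⟩
        · exact e34 h.symm
        · exact e14 h
  · have new1 : ∀ o, Fil D v A x3 o → Fil D v A o x1 → False := by
      rintro o (h1 | ⟨h1, -⟩ | ⟨h1, -⟩) h2
      · rcases h2 with h2 | ⟨-, h2⟩ | ⟨h2, -⟩
        · exact key1 o h1.2.2 h1.1 h2.1
        · exact e13 h2
        · subst h2
          exact as _ _ r43 h1.1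
      · exact e13 h1.symm
      · exact e34 h1
    have new2 : ∀ o, Fil D v A x1 o → Fil D v A o x4 → False := by
      rintro o (h1 | ⟨-, h1⟩ | ⟨h1, -⟩) h2
      · rcases h2 with h2 | ⟨-, h2⟩ | ⟨-, h2⟩
        · exact key2 o h1.2.2 h1.1 h2.1
        · exact e34 h2.symm
        · exact e14 h2.symm
      · subst h1
        rcases h2 with h2 | ⟨-, h2⟩ | ⟨-, h2⟩
        · exact as _ _ r43 h2.1
        · exact e34 h2.symm
        · exact e14 h2.symm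
      · exact e14 h1
    have new : ∀ x y z, A x y → Fil D v A y z → Fil D v A z x → False := by
      rintro x y z (⟨rfl, rfl⟩ | ⟨rfl, rfl⟩) h2 h3
      · exact new1 z h2 h3
      · exact new2 z h2 h3
    rintro x y z h1 h2 h3
    rcases h1 with k1 | k1
    · rcases h2 with k2 | k2
      · rcases h3 with k3 | k3
        · exact tri _ _ _ k1.1 k2.1 k3.1
        · exact new z x y k3 (Or.inl k1) (Or.inl k2)
      · exact new y z x k2 h3 (Or.inl k1)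
    · exact new x y z k1 h2 h3
  · intro O hO hE
    have f12 : Ex O x1 x2 := hE _ _ (Or.inl ⟨r12, e1, e2⟩)
    have f32 : Ex O x3 x2 := hE _ _ (Or.inl ⟨r32, e3, e2⟩)
    have f43 : Ex O x4 x3 := hE _ _ (Or.inl ⟨r43, e4, e3⟩)
    have f13 : Ex O x1 x3 := hE _ _ (Or.inr (Or.inl ⟨rfl, rfl⟩))
    have f41 : Ex O x4 x1 := hE _ _ (Or.inr (Or.inr ⟨rfl, rfl⟩))
    exact cuts_C4 e12 e13 e14 e1 e23 e24 e2 e34 e3 e4 hin hout O hO f12 f13 f32 f43 f41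

/-- the configuration: pentagon `z0, .., z4` without chords, `w1 ~ z0, z1, z2, w2`,
`w2 ~ z3, z4, z0, w1` -/
structure P2 (D : V → V → Prop) (z0 z1 z2 z3 z4 w1 w2 : V) : Prop where
  d1 : Ds z2 z1 z0 w2 w1
  d2 : Ds w1 z0 z4 z3 w2
  e23 : z2 ≠ z3
  e24 : z2 ≠ z4
  e13 : z1 ≠ z3
  e14 : z1 ≠ z4
  n1 : ∀ u, Ar D w1 u → u = z2 ∨ u = z1 ∨ u = z0 ∨ u = w2
  n2 : ∀ u, Ar D w2 u → u = w1 ∨ u = z0 ∨ u = z4 ∨ u = z3
  w1z1 : Ar D z1 w1
  w1z0 : Ar D z0 w1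
  w2z0 : Ar D z0 w2
  w2z4 : Ar D z4 w2
  r01 : Ar D z0 z1
  r12 : Ar D z1 z2
  r34 : Ar D z3 z4
  r40 : Ar D z4 z0
  c02 : ¬ Ar D z0 z2
  c13 : ¬ Ar D z1 z3
  c24 : ¬ Ar D z2 z4
  c30 : ¬ Ar D z3 z0
  c41 : ¬ Ar D z4 z1

omit [DecidableEq V] in
/-- the mirror image -/
theorem P2.mir {z0 z1 z2 z3 z4 w1 w2 : V} (h : P2 D z0 z1 z2 z3 z4 w1 w2) :
    P2 D z0 z4 z3 z2 z1 w2 w1 where
  d1 := h.d2.mir
  d2 := h.d1.mir
  e23 := h.e23.symm
  e24 := h.e13.symm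
  e13 := h.e24.symm
  e14 := h.e14.symm
  n1 := fun u hu => by
    have := h.n2 u hu
    tauto
  n2 := fun u hu => by
    have := h.n1 u hu
    tauto
  w1z1 := h.w2z4
  w1z0 := h.w2z0
  w2z0 := h.w1z0
  w2z4 := h.w1z1
  r01 := ar_symm h.r40
  r12 := ar_symm h.r34
  r34 := ar_symm h.r12
  r40 := ar_symm h.r01
  c02 := fun k => h.c30 (ar_symm k)
  c13 := fun k => h.c24 (ar_symm k)
  c24 := fun k => h.c13 (ar_symm k)
  c30 := fun k => h.c02 (ar_symm k)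
  c41 := fun k => h.c41 (ar_symm k)

omit [DecidableEq V] in
/-- reversal -/
theorem P2.rev0 {z0 z1 z2 z3 z4 w1 w2 : V} (h : P2 D z0 z1 z2 z3 z4 w1 w2) :
    P2 (Rev D) z0 z1 z2 z3 z4 w1 w2 where
  d1 := h.d1
  d2 := h.d2
  e23 := h.e23
  e24 := h.e24
  e13 := h.e13
  e14 := h.e14
  n1 := fun u hu => h.n1 u (ar_rev.1 hu)
  n2 := fun u hu => h.n2 u (ar_rev.1 hu)
  w1z1 := ar_rev.2 h.w1z1
  w1z0 := ar_rev.2 h.w1z0
  w2z0 := ar_rev.2 h.w2z0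
  w2z4 := ar_rev.2 h.w2z4
  r01 := ar_rev.2 h.r01
  r12 := ar_rev.2 h.r12
  r34 := ar_rev.2 h.r34
  r40 := ar_rev.2 h.r40
  c02 := fun k => h.c02 (ar_rev.1 k)
  c13 := fun k => h.c13 (ar_rev.1 k)
  c24 := fun k => h.c24 (ar_rev.1 k)
  c30 := fun k => h.c30 (ar_rev.1 k)
  c41 := fun k => h.c41 (ar_rev.1 k)

/-- `w2` of type C4 -/
private theorem five2_C (hF : FanT V) (hM : MCw T D a b c) (hT : Ts T D a b c)
    {z0 z1 z2 z3 z4 w1 w2 : V} (h2 : ¬ Tr a b c w2) (h : P2 D z0 z1 z2 z3 z4 w1 w2)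
    (q12 : D w1 w2) (q23 : D w2 z3) (q41 : D z2 w1)
    (k1 : D w2 z0) (k2 : D w2 z4) (k3 : D z4 z0) (k4 : D z3 z4) (k5 : D w1 z0) : False := by
  have as := hT.pl.asymm
  refine red_C4' hF hM hT h2 h.d2 h.n2 q12 k1 k2 q23 k5 k3 k4 ?_ ?_ ?_ ?_
  · intro k
    rcases h.n1 _ k with e | e | e | e
    · exact h.e24 e.symm
    · exact h.e14 e.symm
    · exact h.d2.h12 e.symm
    · exact h.d2.h2 e
  · intro k
    rcases h.n1 _ k with e | e | e | e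
    · exact h.e23 e.symm
    · exact h.e13 e.symm
    · exact h.d2.h13 e.symm
    · exact h.d2.h3 e
  · intro o ho g1 g2
    rcases h.n1 o (Or.inr g2) with rfl | rfl | rfl | rfl
    · exact h.c24 (Or.inr g1)
    · exact h.c41 (Or.inl g1)
    · exact as _ _ k5 g2
    · exact ho rfl
  · intro o ho g1 g2
    rcases h.n1 o (Or.inl g1) with rfl | rfl | rfl | rfl
    · exact as _ _ q41 g1
    · exact h.c13 (Or.inl g2)
    · exact h.c30 (Or.inr g2)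
    · exact ho rfl

/-- one orientation of the quad -/
private theorem five2_a (hF : FanT V) (hM : MCw T D a b c) (hT : Ts T D a b c)
    {z0 z1 z2 z3 z4 w1 w2 : V} (h1 : ¬ Tr a b c w1) (h2 : ¬ Tr a b c w2)
    (h : P2 D z0 z1 z2 z3 z4 w1 w2) (q12 : D w1 w2) (q23 : D w2 z3) (q41 : D z2 w1) :
    False := by
  have as := hT.pl.asymm
  have fo : ∀ {v x y : V}, D x v → D v y → Ar D x y → D x y := fun hx hy k =>
    k.resolve_right fun k' => hT.pl.tri _ _ _ hx hy k'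
  have R1 := rob41 hF hM hT h1 h.d1 h.n1 q41 q12 h.w1z1 h.w1z0 (ar_symm h.r12)
    (ar_symm h.r01) h.w2z0
  have R2 := rob41 hF hM hT h2 h.d2 h.n2 q12 q23 h.w2z0 h.w2z4 (ar_symm h.w1z0)
    (ar_symm h.r40) (ar_symm h.r34)
  -- `w2` of type C4
  have C : D w2 z0 ∧ D w2 z4 ∧ D z4 z0 ∧ D z3 z4 → False := by
    rintro ⟨k1, k2, k3, k4⟩
    exact five2_C hF hM hT h2 h q12 q23 q41 k1 k2 k3 k4 (fo q12 k1 (ar_symm h.w1z0))
  -- `w1` of type C4 reversed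
  have C' : D z1 w1 ∧ D z0 w1 ∧ D z1 z2 ∧ D z0 z1 → False := by
    rintro ⟨k1, k2, k3, k4⟩
    have k5 : D z0 w2 := fo k2 q12 h.w2z0
    exact five2_C (D := Rev D) hF (mcw_rev.2 hM) (ts_rev.2 hT) h1 h.mir.rev0 q12 q41 q23
      k2 k1 k4 k3 k5
  rcases R2 with ⟨k1, k2, k3, k4⟩ | R2 | ⟨k1, k2, k3, k4⟩
  · rcases R1 with ⟨m1, m2, m3, m4⟩ | ⟨m1, m2, m3, m4⟩ | R1
    · exact as _ _ k1 m4
    · exact as _ _ k1 m4
    · exact C' R1
  · exact C R2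
  · rcases R1 with ⟨m1, m2, m3, m4⟩ | ⟨m1, m2, m3, m4⟩ | R1
    · exact as _ _ k1 m4
    · exact as _ _ k1 m4
    · exact C' R1

/-- **The pentagon with two inner vertices and a quad is reducible.** -/
theorem red_five2 (hF : FanT V) (hM : MCw T D a b c) (hT : Ts T D a b c)
    {z0 z1 z2 z3 z4 w1 w2 : V} (h1 : ¬ Tr a b c w1) (h2 : ¬ Tr a b c w2)
    (h : P2 D z0 z1 z2 z3 z4 w1 w2)
    (hq : (D w1 w2 ∧ D w2 z3 ∧ D z2 w1) ∨ (D w2 w1 ∧ D z3 w2 ∧ D w1 z2)) : False := by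
  rcases hq with ⟨q1, q2, q3⟩ | ⟨q1, q2, q3⟩
  · exact five2_a hF hM hT h1 h2 h q1 q2 q3
  · exact five2_a hF hM hT h2 h1 h.mir q1 q3 q2

end Pool.Agent.H67.G4
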