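import Pool.Agent.H42.G4.Cuts4
import Pool.Agent.H80.G4.Deg3

/-!
# No inner real vertex whose link is a real 4-cycle (four real triangles)

`red_four0`: an inner real vertex `v` of a minimal counterexample does not have its neighbours
among `z0, z1, z2, z3` with arcs between `z0 z1`, `z1 z2`, `z2 z3`, `z3 z0`. The vertex is not
assumed to be good. The new arc goes from an out-neighbour `q` to an in-neighbour `p`; it is added
unless `p`, `q` are adjacent or there is a directed path `p > o > q` off `v`; in all three cases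
`p` is before `q` in one of the orders.
-/

set_option autoImplicit false

namespace Pool.Agent.H67.G4

open Relation Pool.Agent.H13.DA Pool.Agent.H72.G4 Pool.Agent.H55.G4 Pool.Agent.H42.G4
  Pool.Agent.H80.G4

section one

variable {V : Type*} [DecidableEq V] {T : Finset (V × V × V)} {D : V → V → Prop} {a b c : V}

private theorem other : ∀ t t' : Fin 3, ∃ s : Fin 3, s ≠ t ∧ s ≠ t' := by decide

/-- deleting `v`, `p` an in-neighbour and `q` an out-neighbour: the orders of the rest can be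
taken with `p` before `q` in one of them -/
theorem del_path (hF : FanT V) (hM : MCw T D a b c) (hT : Ts T D a b c) {v p q : V}
    (hv : ¬ Tr a b c v) (hp : D p v) (hq : D v q)
    (hext : ∀ O : Fin 3 → V → V → Prop, (∀ i, STO (O i)) →
      (∀ x y, D x y → x ≠ v → y ≠ v → Ex O x y) → (∃ i, O i p q) → Cuts D v O) : False := by
  classical
  have irr : ∀ x, ¬ D x x := fun x h => hT.pl.asymm x x h h
  have hpq : p ≠ q := by
    rintro rfl
    exact hT.pl.asymm _ _ hp hq
  have hpv : p ≠ v := by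
    rintro rfl
    exact irr _ hp
  have hqv : q ≠ v := by
    rintro rfl
    exact irr _ hq
  let N : Prop := ¬ Ar D p q ∧ ∀ o, o ≠ v → D p o → ¬ D o q
  let A : V → V → Prop := fun x y => x = q ∧ y = p ∧ N
  have hD : ∀ x y, Fil D v A x y → (D x y ∧ x ≠ v ∧ y ≠ v) ∨ (x = q ∧ y = p ∧ N) := by
    rintro x y (h | h)
    · exact Or.inl h
    · exact Or.inr h
  refine del_fill hF hM hT (v := v) (p := q) (A := A) hv ⟨q, Or.inl hq⟩ (Or.inl hq) ?_ ?_ ?_ ?_
  · rintro x y ⟨rfl, rfl, -⟩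
    exact Or.inl ⟨rfl, Or.inr hp, hpq⟩
  · intro x y g1 g2
    rcases hD x y g1 with ⟨h1, -, -⟩ | ⟨rfl, rfl, h1⟩
    · rcases hD y x g2 with ⟨h2, -, -⟩ | ⟨rfl, rfl, h2⟩
      · exact hT.pl.asymm _ _ h1 h2
      · exact h2.1 (Or.inl h1)
    · rcases hD _ _ g2 with ⟨h2, -, -⟩ | ⟨e2, -, h2⟩
      · exact h1.1 (Or.inl h2)
      · exact hpq e2
  · have new : ∀ o, N → Fil D v A p o → Fil D v A o q → False := by
      intro o hN g1 g2
      rcases hD _ _ g1 with ⟨h1, -, ho⟩ | ⟨e1, -, -⟩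
      · rcases hD _ _ g2 with ⟨h2, -, -⟩ | ⟨-, e2, -⟩
        · exact hN.2 o ho h1 h2
        · exact hpq e2.symm
      · exact hpq e1
    intro x y z g1 g2 g3
    rcases hD x y g1 with ⟨h1, -, -⟩ | ⟨rfl, rfl, h1⟩
    · rcases hD y z g2 with ⟨h2, -, -⟩ | ⟨rfl, rfl, h2⟩
      · rcases hD z x g3 with ⟨h3, -, -⟩ | ⟨rfl, rfl, h3⟩
        · exact hT.pl.tri _ _ _ h1 h2 h3
        · exact new y h3 g1 g2
      · exact new x h2 g3 g1
    · exact new z h1 g2 g3
  · intro O hO hE
    refine hext O hO (fun x y h hx hy => hE x y (Or.inl ⟨h, hx, hy⟩)) ?_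
    by_cases hN : N
    · obtain ⟨i, h1, -⟩ := hE q p (Or.inr ⟨rfl, rfl, hN⟩)
      exact ⟨i, h1⟩
    · by_cases har : Ar D p q
      · rcases har with h | h
        · obtain ⟨i, h1, h2⟩ := hE p q (Or.inl ⟨h, hpv, hqv⟩)
          obtain ⟨j, hj⟩ := exists_ne i
          exact ⟨j, h2 j hj⟩
        · obtain ⟨i, h1, -⟩ := hE q p (Or.inl ⟨h, hqv, hpv⟩)
          exact ⟨i, h1⟩
      · have hex : ∃ o, o ≠ v ∧ D p o ∧ D o q := by
          by_contra hcon
          push Not at hcon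
          exact hN ⟨har, fun o h0 h1 => hcon o h0 h1⟩
        obtain ⟨o, h0, h1, h2⟩ := hex
        obtain ⟨i, -, h3⟩ := hE p o (Or.inl ⟨h1, hpv, h0⟩)
        obtain ⟨j, -, h4⟩ := hE o q (Or.inl ⟨h2, h0, hqv⟩)
        obtain ⟨s, s1, s2⟩ := other i j
        exact ⟨s, (hO s).tr _ _ _ (h3 s s1) (h4 s s2)⟩

end one

section cuts

variable {V : Type*} {D : V → V → Prop} {v : V}

theorem chk_iooo : chk [(0,0,0,0),(1,0,0,0),(0,0,1,0),(1,0,0,0)] [St.free 1 14] = true := by
  decide +kernel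

theorem chk_ioio : chk [(0,0,0,0),(1,0,0,0),(0,2,0,0),(5,0,0,0)] [St.free 5 10] = true := by
  decide +kernel

/-- `0 > 1`, `2 > 3` -/
theorem chk_iiooA : chk [(0,0,0,0),(1,0,0,0),(2,0,0,0),(5,0,0,0)] [St.free 3 12] = true := by
  decide +kernel

/-- `1 > 0`, `3 > 2` -/
theorem chk_iiooB : chk [(0,0,0,0),(0,1,0,0),(2,0,0,0),(1,4,0,0)] [St.free 3 12] = true := by
  decide +kernel

/-- `1 > 0`, `2 > 3`, `0` before `2` somewhere -/
theorem chk_iiooC : chk [(0,0,0,0),(0,1,0,0),(2,0,1,0),(5,0,0,0)] [St.free 3 12] = true := by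
  decide +kernel

private lemma lt3 {m x : ℕ} (h : m < 8) (hx : m.testBit x = true) : x < 3 := tb_lt (N := 3) h hx
private lemma lt0 {x : ℕ} {p : Prop} (hx : (0 : ℕ).testBit x = true) : p := by simp at hx

/-- from the result of `conf` to cuts -/
theorem cuts_post {x1 x2 x3 x4 : V} {I U : ℕ} {O Q : Fin 3 → V → V → Prop}
    (q1 : ∀ i, STO (Q i))
    (q2 : ∀ i x y, (∀ k, 4 ≤ k → k < 4 + 1 → x ≠ nm x1 x2 x3 x4 v k ∧ y ≠ nm x1 x2 x3 x4 v k) →
      (Q i x y ↔ O i x y))
    (q3 : Post (nm x1 x2 x3 x4 v) 4 [St.free I U] Q)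
    (hin : ∀ x, D x v → ∃ k, k < 4 ∧ I.testBit k = true ∧ x = nm x1 x2 x3 x4 v k)
    (hout : ∀ x, D v x → ∃ k, k < 4 ∧ U.testBit k = true ∧ x = nm x1 x2 x3 x4 v k) :
    Cuts D v O := by
  obtain ⟨q3, q4, -⟩ := q3
  refine cuts_of q1 ?_ ?_ ?_
  · intro i x y hx hy
    refine q2 i x y fun k hk1 hk2 => ?_
    have : k = 4 := by omega
    subst this
    exact ⟨hx, hy⟩
  · intro x hx
    obtain ⟨k, k1, k2, rfl⟩ := hin x hx
    exact q3 k k1 k2
  · intro x hx
    obtain ⟨k, k1, k2, rfl⟩ := hout x hx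
    exact q4 k k1 k2

/-- the distinctness of four neighbours and `v` -/
structure Ds (z0 z1 z2 z3 v : V) : Prop where
  h01 : z0 ≠ z1
  h02 : z0 ≠ z2
  h03 : z0 ≠ z3
  h0 : z0 ≠ v
  h12 : z1 ≠ z2
  h13 : z1 ≠ z3
  h1 : z1 ≠ v
  h23 : z2 ≠ z3
  h2 : z2 ≠ v
  h3 : z3 ≠ v

theorem Ds.inj {z0 z1 z2 z3 : V} (h : Ds z0 z1 z2 z3 v) :
    ∀ x y, x < 4 + 1 → y < 4 + 1 → nm z0 z1 z2 z3 v x = nm z0 z1 z2 z3 v y → x = y :=
  nm_inj h.h01 h.h02 h.h03 h.h0 h.h12 h.h13 h.h1 h.h23 h.h2 h.h3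

theorem Ds.rot {z0 z1 z2 z3 : V} (h : Ds z0 z1 z2 z3 v) : Ds z1 z2 z3 z0 v :=
  ⟨h.h12, h.h13, h.h01.symm, h.h1, h.h23, h.h02.symm, h.h2, h.h03.symm, h.h3, h.h0⟩

/-- general form: the four vertices named -/
theorem cuts_gen {z0 z1 z2 z3 : V} {s1 s2 s3 : ℕ × ℕ × ℕ × ℕ} {I U : ℕ}
    (hc : chk [(0,0,0,0),s1,s2,s3] [St.free I U] = true) (hd : Ds z0 z1 z2 z3 v)
    {O : Fin 3 → V → V → Prop} (hO : ∀ i, STO (O i))
    (hp : Pre (nm z0 z1 z2 z3 v) 0 [(0,0,0,0),s1,s2,s3] O)
    (hin : ∀ x, D x v → ∃ k, k < 4 ∧ I.testBit k = true ∧ x = nm z0 z1 z2 z3 v k)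
    (hout : ∀ x, D v x → ∃ k, k < 4 ∧ U.testBit k = true ∧ x = nm z0 z1 z2 z3 v k) :
    Cuts D v O := by
  obtain ⟨Q, q1, q2, q3⟩ := conf [(0,0,0,0),s1,s2,s3] [St.free I U] hc
    (nm z0 z1 z2 z3 v) hd.inj trivial O hO hp
  exact cuts_post q1 q2 q3 hin hout

theorem cuts_iooo {z0 z1 z2 z3 : V} (hd : Ds z0 z1 z2 z3 v) {O : Fin 3 → V → V → Prop}
    (hO : ∀ i, STO (O i)) (e01 : Ex O z0 z1) (e03 : Ex O z0 z3) (u02 : ∃ i, O i z0 z2)
    (hin : ∀ x, D x v → x = z0) (hout : ∀ x, D v x → x = z1 ∨ x = z2 ∨ x = z3) :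
    Cuts D v O := by
  refine cuts_gen chk_iooo hd hO ?_ ?_ ?_
  · refine ⟨fun x hx => lt0 hx, fun x hx => lt0 hx, fun x hx => lt0 hx, fun x hx => lt0 hx,
      fun x hx => ?_, fun x hx => lt0 hx, fun x hx => lt0 hx, fun x hx => lt0 hx,
      fun x hx => lt0 hx, fun x hx => lt0 hx, fun x hx => ?_, fun x hx => lt0 hx,
      fun x hx => ?_, fun x hx => lt0 hx, fun x hx => lt0 hx, fun x hx => lt0 hx, trivial⟩
    · have h := lt3 (by norm_num) hx
      interval_cases x
      · exact ⟨by norm_num, e01⟩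
      · exact absurd hx (by decide)
      · exact absurd hx (by decide)
    · have h := lt3 (by norm_num) hx
      interval_cases x
      · exact ⟨by norm_num, u02⟩
      · exact absurd hx (by decide)
      · exact absurd hx (by decide)
    · have h := lt3 (by norm_num) hx
      interval_cases x
      · exact ⟨by norm_num, e03⟩
      · exact absurd hx (by decide)
      · exact absurd hx (by decide)
  · intro x hx
    exact ⟨0, by decide, by decide, hin x hx⟩
  · intro x hx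
    rcases hout x hx with h | h | h
    · exact ⟨1, by decide, by decide, h⟩
    · exact ⟨2, by decide, by decide, h⟩
    · exact ⟨3, by decide, by decide, h⟩

theorem cuts_ioio {z0 z1 z2 z3 : V} (hd : Ds z0 z1 z2 z3 v) {O : Fin 3 → V → V → Prop}
    (hO : ∀ i, STO (O i)) (e01 : Ex O z0 z1) (e03 : Ex O z0 z3) (e21 : Ex O z2 z1)
    (e23 : Ex O z2 z3) (hin : ∀ x, D x v → x = z0 ∨ x = z2)
    (hout : ∀ x, D v x → x = z1 ∨ x = z3) : Cuts D v O := by
  refine cuts_gen chk_ioio hd hO ?_ ?_ ?_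
  · refine ⟨fun x hx => lt0 hx, fun x hx => lt0 hx, fun x hx => lt0 hx, fun x hx => lt0 hx,
      fun x hx => ?_, fun x hx => lt0 hx, fun x hx => lt0 hx, fun x hx => lt0 hx,
      fun x hx => lt0 hx, fun x hx => ?_, fun x hx => lt0 hx, fun x hx => lt0 hx,
      fun x hx => ?_, fun x hx => lt0 hx, fun x hx => lt0 hx, fun x hx => lt0 hx, trivial⟩
    · have h := lt3 (by norm_num) hx
      interval_cases x
      · exact ⟨by norm_num, e01⟩
      · exact absurd hx (by decide)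
      · exact absurd hx (by decide)
    · have h := lt3 (by norm_num) hx
      interval_cases x
      · exact absurd hx (by decide)
      · exact ⟨by norm_num, e21⟩
      · exact absurd hx (by decide)
    · have h := lt3 (by norm_num) hx
      interval_cases x
      · exact ⟨by norm_num, e03⟩
      · exact absurd hx (by decide)
      · exact ⟨by norm_num, e23⟩
  · intro x hx
    rcases hin x hx with h | h
    · exact ⟨0, by decide, by decide, h⟩
    · exact ⟨2, by decide, by decide, h⟩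
  · intro x hx
    rcases hout x hx with h | h
    · exact ⟨1, by decide, by decide, h⟩
    · exact ⟨3, by decide, by decide, h⟩

private theorem in01 {z0 z1 z2 z3 : V} {x : V} (h : x = z0 ∨ x = z1) :
    ∃ k, k < 4 ∧ (3 : ℕ).testBit k = true ∧ x = nm z0 z1 z2 z3 v k := by
  rcases h with h | h
  · exact ⟨0, by decide, by decide, h⟩
  · exact ⟨1, by decide, by decide, h⟩

private theorem out23 {z0 z1 z2 z3 : V} {x : V} (h : x = z2 ∨ x = z3) :
    ∃ k, k < 4 ∧ (12 : ℕ).testBit k = true ∧ x = nm z0 z1 z2 z3 v k := by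
  rcases h with h | h
  · exact ⟨2, by decide, by decide, h⟩
  · exact ⟨3, by decide, by decide, h⟩

theorem cuts_iiooA {z0 z1 z2 z3 : V} (hd : Ds z0 z1 z2 z3 v) {O : Fin 3 → V → V → Prop}
    (hO : ∀ i, STO (O i)) (e01 : Ex O z0 z1) (e12 : Ex O z1 z2) (e23 : Ex O z2 z3)
    (e03 : Ex O z0 z3) (hin : ∀ x, D x v → x = z0 ∨ x = z1)
    (hout : ∀ x, D v x → x = z2 ∨ x = z3) : Cuts D v O := by
  refine cuts_gen chk_iiooA hd hO ?_ (fun x hx => in01 (hin x hx)) (fun x hx => out23 (hout x hx))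
  refine ⟨fun x hx => lt0 hx, fun x hx => lt0 hx, fun x hx => lt0 hx, fun x hx => lt0 hx,
    fun x hx => ?_, fun x hx => lt0 hx, fun x hx => lt0 hx, fun x hx => lt0 hx,
    fun x hx => ?_, fun x hx => lt0 hx, fun x hx => lt0 hx, fun x hx => lt0 hx,
    fun x hx => ?_, fun x hx => lt0 hx, fun x hx => lt0 hx, fun x hx => lt0 hx, trivial⟩
  · have h := lt3 (by norm_num) hx
    interval_cases x
    · exact ⟨by norm_num, e01⟩
    · exact absurd hx (by decide)
    · exact absurd hx (by decide)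
  · have h := lt3 (by norm_num) hx
    interval_cases x
    · exact absurd hx (by decide)
    · exact ⟨by norm_num, e12⟩
    · exact absurd hx (by decide)
  · have h := lt3 (by norm_num) hx
    interval_cases x
    · exact ⟨by norm_num, e03⟩
    · exact absurd hx (by decide)
    · exact ⟨by norm_num, e23⟩

theorem cuts_iiooB {z0 z1 z2 z3 : V} (hd : Ds z0 z1 z2 z3 v) {O : Fin 3 → V → V → Prop}
    (hO : ∀ i, STO (O i)) (e10 : Ex O z1 z0) (e12 : Ex O z1 z2) (e32 : Ex O z3 z2)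
    (e03 : Ex O z0 z3) (hin : ∀ x, D x v → x = z0 ∨ x = z1)
    (hout : ∀ x, D v x → x = z2 ∨ x = z3) : Cuts D v O := by
  refine cuts_gen chk_iiooB hd hO ?_ (fun x hx => in01 (hin x hx)) (fun x hx => out23 (hout x hx))
  refine ⟨fun x hx => lt0 hx, fun x hx => lt0 hx, fun x hx => lt0 hx, fun x hx => lt0 hx,
    fun x hx => lt0 hx, fun x hx => ?_, fun x hx => lt0 hx, fun x hx => lt0 hx,
    fun x hx => ?_, fun x hx => lt0 hx, fun x hx => lt0 hx, fun x hx => lt0 hx,
    fun x hx => ?_, fun x hx => ?_, fun x hx => lt0 hx, fun x hx => lt0 hx, trivial⟩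
  · have h := lt3 (by norm_num) hx
    interval_cases x
    · exact ⟨by norm_num, e10⟩
    · exact absurd hx (by decide)
    · exact absurd hx (by decide)
  · have h := lt3 (by norm_num) hx
    interval_cases x
    · exact absurd hx (by decide)
    · exact ⟨by norm_num, e12⟩
    · exact absurd hx (by decide)
  · have h := lt3 (by norm_num) hx
    interval_cases x
    · exact ⟨by norm_num, e03⟩
    · exact absurd hx (by decide)
    · exact absurd hx (by decide)
  · have h := lt3 (by norm_num) hx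
    interval_cases x
    · exact absurd hx (by decide)
    · exact absurd hx (by decide)
    · exact ⟨by norm_num, e32⟩

theorem cuts_iiooC {z0 z1 z2 z3 : V} (hd : Ds z0 z1 z2 z3 v) {O : Fin 3 → V → V → Prop}
    (hO : ∀ i, STO (O i)) (e10 : Ex O z1 z0) (e12 : Ex O z1 z2) (e23 : Ex O z2 z3)
    (e03 : Ex O z0 z3) (u02 : ∃ i, O i z0 z2) (hin : ∀ x, D x v → x = z0 ∨ x = z1)
    (hout : ∀ x, D v x → x = z2 ∨ x = z3) : Cuts D v O := by
  refine cuts_gen chk_iiooC hd hO ?_ (fun x hx => in01 (hin x hx)) (fun x hx => out23 (hout x hx))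
  refine ⟨fun x hx => lt0 hx, fun x hx => lt0 hx, fun x hx => lt0 hx, fun x hx => lt0 hx,
    fun x hx => lt0 hx, fun x hx => ?_, fun x hx => lt0 hx, fun x hx => lt0 hx,
    fun x hx => ?_, fun x hx => lt0 hx, fun x hx => ?_, fun x hx => lt0 hx,
    fun x hx => ?_, fun x hx => lt0 hx, fun x hx => lt0 hx, fun x hx => lt0 hx, trivial⟩
  · have h := lt3 (by norm_num) hx
    interval_cases x
    · exact ⟨by norm_num, e10⟩
    · exact absurd hx (by decide)
    · exact absurd hx (by decide)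
  · have h := lt3 (by norm_num) hx
    interval_cases x
    · exact absurd hx (by decide)
    · exact ⟨by norm_num, e12⟩
    · exact absurd hx (by decide)
  · have h := lt3 (by norm_num) hx
    interval_cases x
    · exact ⟨by norm_num, u02⟩
    · exact absurd hx (by decide)
    · exact absurd hx (by decide)
  · have h := lt3 (by norm_num) hx
    interval_cases x
    · exact ⟨by norm_num, e03⟩
    · exact absurd hx (by decide)
    · exact ⟨by norm_num, e23⟩

end cuts

section main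

variable {V : Type*} [DecidableEq V] {T : Finset (V × V × V)} {D : V → V → Prop} {a b c : V}

omit [DecidableEq V] in
/-- the arc between an in-neighbour and an out-neighbour of `v` -/
private theorem forced (hT : Ts T D a b c) {v x y : V} (hx : D x v) (hy : D v y)
    (h : Ar D x y) : D x y :=
  h.resolve_right fun k => hT.pl.tri _ _ _ hx hy k

/-- in, out, out, out -/
theorem red_iooo (hF : FanT V) (hM : MCw T D a b c) (hT : Ts T D a b c) {v z0 z1 z2 z3 : V}
    (hv : ¬ Tr a b c v) (hd : Ds z0 z1 z2 z3 v)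
    (hN : ∀ u, Ar D v u → u = z0 ∨ u = z1 ∨ u = z2 ∨ u = z3)
    (r01 : Ar D z0 z1) (r30 : Ar D z3 z0)
    (d0 : D z0 v) (d1 : D v z1) (d2 : D v z2) (d3 : D v z3) : False := by
  have as := hT.pl.asymm
  refine del_path hF hM hT hv d0 d2 fun O hO hE hu => ?_
  have f01 := forced hT d0 d1 r01
  have f03 := forced hT d0 d3 (ar_symm r30)
  refine cuts_iooo hd hO (hE _ _ f01 hd.h0 hd.h1) (hE _ _ f03 hd.h0 hd.h3) hu ?_ ?_
  · intro x hx
    rcases hN x (Or.inr hx) with rfl | rfl | rfl | rfl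
    · rfl
    · exact absurd hx (as _ _ d1)
    · exact absurd hx (as _ _ d2)
    · exact absurd hx (as _ _ d3)
  · intro x hx
    rcases hN x (Or.inl hx) with rfl | rfl | rfl | rfl
    · exact absurd hx (as _ _ d0)
    · exact Or.inl rfl
    · exact Or.inr (Or.inl rfl)
    · exact Or.inr (Or.inr rfl)

/-- in, out, in, out -/
theorem red_ioio (hF : FanT V) (hM : MCw T D a b c) (hT : Ts T D a b c) {v z0 z1 z2 z3 : V}
    (hv : ¬ Tr a b c v) (hd : Ds z0 z1 z2 z3 v)
    (hN : ∀ u, Ar D v u → u = z0 ∨ u = z1 ∨ u = z2 ∨ u = z3)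
    (r01 : Ar D z0 z1) (r12 : Ar D z1 z2) (r23 : Ar D z2 z3) (r30 : Ar D z3 z0)
    (d0 : D z0 v) (d1 : D v z1) (d2 : D z2 v) (d3 : D v z3) : False := by
  have as := hT.pl.asymm
  refine del_path hF hM hT hv d0 d1 fun O hO hE _ => ?_
  have f01 := forced hT d0 d1 r01
  have f03 := forced hT d0 d3 (ar_symm r30)
  have f21 := forced hT d2 d1 (ar_symm r12)
  have f23 := forced hT d2 d3 r23
  refine cuts_ioio hd hO (hE _ _ f01 hd.h0 hd.h1) (hE _ _ f03 hd.h0 hd.h3)
    (hE _ _ f21 hd.h2 hd.h1) (hE _ _ f23 hd.h2 hd.h3) ?_ ?_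
  · intro x hx
    rcases hN x (Or.inr hx) with rfl | rfl | rfl | rfl
    · exact Or.inl rfl
    · exact absurd hx (as _ _ d1)
    · exact Or.inr rfl
    · exact absurd hx (as _ _ d3)
  · intro x hx
    rcases hN x (Or.inl hx) with rfl | rfl | rfl | rfl
    · exact absurd hx (as _ _ d0)
    · exact Or.inl rfl
    · exact absurd hx (as _ _ d2)
    · exact Or.inr rfl

/-- in, in, out, out, not `0 > 1`, `3 > 2` -/
private theorem red_iioo1 (hF : FanT V) (hM : MCw T D a b c) (hT : Ts T D a b c)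
    {v z0 z1 z2 z3 : V} (hv : ¬ Tr a b c v) (hd : Ds z0 z1 z2 z3 v)
    (hN : ∀ u, Ar D v u → u = z0 ∨ u = z1 ∨ u = z2 ∨ u = z3)
    (r01 : Ar D z0 z1) (r12 : Ar D z1 z2) (r23 : Ar D z2 z3) (r30 : Ar D z3 z0)
    (d0 : D z0 v) (d1 : D z1 v) (d2 : D v z2) (d3 : D v z3)
    (hne : ¬ (D z0 z1 ∧ D z3 z2)) : False := by
  have as := hT.pl.asymm
  refine del_path hF hM hT hv d0 d2 fun O hO hE hu => ?_
  have f12 := forced hT d1 d2 r12
  have f03 := forced hT d0 d3 (ar_symm r30)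
  have hin : ∀ x, D x v → x = z0 ∨ x = z1 := by
    intro x hx
    rcases hN x (Or.inr hx) with rfl | rfl | rfl | rfl
    · exact Or.inl rfl
    · exact Or.inr rfl
    · exact absurd hx (as _ _ d2)
    · exact absurd hx (as _ _ d3)
  have hout : ∀ x, D v x → x = z2 ∨ x = z3 := by
    intro x hx
    rcases hN x (Or.inl hx) with rfl | rfl | rfl | rfl
    · exact absurd hx (as _ _ d0)
    · exact absurd hx (as _ _ d1)
    · exact Or.inl rfl
    · exact Or.inr rfl
  have e12 := hE _ _ f12 hd.h1 hd.h2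
  have e03 := hE _ _ f03 hd.h0 hd.h3
  rcases r01 with k01 | k10
  · rcases r23 with k23 | k32
    · exact cuts_iiooA hd hO (hE _ _ k01 hd.h0 hd.h1) e12 (hE _ _ k23 hd.h2 hd.h3) e03 hin hout
    · exact absurd ⟨k01, k32⟩ hne
  · rcases r23 with k23 | k32
    · exact cuts_iiooC hd hO (hE _ _ k10 hd.h1 hd.h0) e12 (hE _ _ k23 hd.h2 hd.h3) e03 hu hin hout
    · exact cuts_iiooB hd hO (hE _ _ k10 hd.h1 hd.h0) e12 (hE _ _ k32 hd.h3 hd.h2) e03 hin hout

/-- in, in, out, out -/
theorem red_iioo (hF : FanT V) (hM : MCw T D a b c) (hT : Ts T D a b c) {v z0 z1 z2 z3 : V}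
    (hv : ¬ Tr a b c v) (hd : Ds z0 z1 z2 z3 v)
    (hN : ∀ u, Ar D v u → u = z0 ∨ u = z1 ∨ u = z2 ∨ u = z3)
    (r01 : Ar D z0 z1) (r12 : Ar D z1 z2) (r23 : Ar D z2 z3) (r30 : Ar D z3 z0)
    (d0 : D z0 v) (d1 : D z1 v) (d2 : D v z2) (d3 : D v z3) : False := by
  by_cases hx : D z0 z1 ∧ D z3 z2
  · refine red_iioo1 hF hM hT hv (z0 := z1) (z1 := z0) (z2 := z3) (z3 := z2)
      ⟨hd.h01.symm, hd.h13, hd.h12, hd.h1, hd.h03, hd.h02, hd.h0, hd.h23.symm, hd.h3, hd.h2⟩
      (fun u hu => by have := hN u hu; tauto) (ar_symm r01) (ar_symm r30) (ar_symm r23)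
      (ar_symm r12) d1 d0 d3 d2 ?_
    rintro ⟨h, -⟩
    exact hT.pl.asymm _ _ h hx.1
  · exact red_iioo1 hF hM hT hv hd hN r01 r12 r23 r30 d0 d1 d2 d3 hx

/-- the hypotheses on the link -/
structure Rg (D : V → V → Prop) (v z0 z1 z2 z3 : V) : Prop where
  ds : Ds z0 z1 z2 z3 v
  nb : ∀ u, Ar D v u → u = z0 ∨ u = z1 ∨ u = z2 ∨ u = z3
  r01 : Ar D z0 z1
  r12 : Ar D z1 z2
  r23 : Ar D z2 z3
  r30 : Ar D z3 z0

omit [DecidableEq V] in
theorem Rg.rot {v z0 z1 z2 z3 : V} (h : Rg D v z0 z1 z2 z3) : Rg D v z1 z2 z3 z0 :=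
  ⟨h.ds.rot, fun u hu => by have := h.nb u hu; tauto, h.r12, h.r23, h.r30, h.r01⟩

omit [DecidableEq V] in
theorem Rg.rev {v z0 z1 z2 z3 : V} (h : Rg D v z0 z1 z2 z3) : Rg (Rev D) v z0 z1 z2 z3 :=
  ⟨h.ds, fun u hu => h.nb u (ar_rev.1 hu), ar_rev.2 h.r01, ar_rev.2 h.r12, ar_rev.2 h.r23,
    ar_rev.2 h.r30⟩

/-- `z0` in: all cases with `z0` in and not (`i`,`i`,`i`,`i`) -/
private theorem red_in (hF : FanT V) (hM : MCw T D a b c) (hT : Ts T D a b c)
    {v z0 z1 z2 z3 : V} (hv : ¬ Tr a b c v) (h : Rg D v z0 z1 z2 z3) (d0 : D z0 v)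
    (h1 : Ar D z1 v) (h2 : Ar D z2 v) (h3 : Ar D z3 v)
    (ho : D v z1 ∨ D v z2 ∨ D v z3) : False := by
  rcases h1 with i1 | o1
  · rcases h2 with i2 | o2
    · rcases h3 with i3 | o3
      · rcases ho with o | o | o
        · exact hT.pl.asymm _ _ i1 o
        · exact hT.pl.asymm _ _ i2 o
        · exact hT.pl.asymm _ _ i3 o
      · -- i i i o
        have k := h.rev.rot.rot.rot
        exact red_iooo (D := Rev D) hF (mcw_rev.2 hM) (ts_rev.2 hT) hv k.ds k.nb k.r01 k.r30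
          o3 d0 i1 i2
    · rcases h3 with i3 | o3
      · -- i i o i
        have k := h.rev.rot.rot
        exact red_iooo (D := Rev D) hF (mcw_rev.2 hM) (ts_rev.2 hT) hv k.ds k.nb k.r01 k.r30
          o2 i3 d0 i1
      · -- i i o o
        exact red_iioo hF hM hT hv h.ds h.nb h.r01 h.r12 h.r23 h.r30 d0 i1 o2 o3
  · rcases h2 with i2 | o2
    · rcases h3 with i3 | o3
      · -- i o i i
        have k := h.rev.rot
        exact red_iooo (D := Rev D) hF (mcw_rev.2 hM) (ts_rev.2 hT) hv k.ds k.nb k.r01 k.r30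
          o1 i2 i3 d0
      · -- i o i o
        exact red_ioio hF hM hT hv h.ds h.nb h.r01 h.r12 h.r23 h.r30 d0 o1 i2 o3
    · rcases h3 with i3 | o3
      · -- i o o i
        have k := h.rot.rot.rot
        exact red_iioo hF hM hT hv k.ds k.nb k.r01 k.r12 k.r23 k.r30 i3 d0 o1 o2
      · -- i o o o
        exact red_iooo hF hM hT hv h.ds h.nb h.r01 h.r30 d0 o1 o2 o3

/-- **No inner real vertex has its link a real 4-cycle** (nor its neighbours among the vertices
of a real closed walk of length four). -/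
theorem red_four0 (hF : FanT V) (hM : MCw T D a b c) (hT : Ts T D a b c) {v z0 z1 z2 z3 : V}
    (hv : ¬ Tr a b c v) (hvr : Re D v)
    (hN : ∀ u, Ar D v u → u = z0 ∨ u = z1 ∨ u = z2 ∨ u = z3)
    (r01 : Ar D z0 z1) (r12 : Ar D z1 z2) (r23 : Ar D z2 z3) (r30 : Ar D z3 z0) : False := by
  classical
  have irr : ∀ x, ¬ D x x := fun x h => hT.pl.asymm x x h h
  have ne : ∀ {x y : V}, Ar D x y → x ≠ y := by
    rintro x y (h | h) rfl
    · exact irr _ h
    · exact irr _ h
  -- all four are neighbours of `v`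
  by_cases h0 : Ar D z0 v
  swap
  · exact red_deg3 hF hM hT hv hvr (x := z1) (y := z2) (z := z3) fun u hu => by
      rcases hN u hu with rfl | h | h | h
      · exact absurd (ar_symm hu) h0
      · exact Or.inl h
      · exact Or.inr (Or.inl h)
      · exact Or.inr (Or.inr h)
  by_cases h1 : Ar D z1 v
  swap
  · exact red_deg3 hF hM hT hv hvr (x := z0) (y := z2) (z := z3) fun u hu => by
      rcases hN u hu with h | rfl | h | h
      · exact Or.inl h
      · exact absurd (ar_symm hu) h1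
      · exact Or.inr (Or.inl h)
      · exact Or.inr (Or.inr h)
  by_cases h2 : Ar D z2 v
  swap
  · exact red_deg3 hF hM hT hv hvr (x := z0) (y := z1) (z := z3) fun u hu => by
      rcases hN u hu with h | h | rfl | h
      · exact Or.inl h
      · exact Or.inr (Or.inl h)
      · exact absurd (ar_symm hu) h2
      · exact Or.inr (Or.inr h)
  by_cases h3 : Ar D z3 v
  swap
  · exact red_deg3 hF hM hT hv hvr (x := z0) (y := z1) (z := z2) fun u hu => by
      rcases hN u hu with h | h | h | rfl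
      · exact Or.inl h
      · exact Or.inr (Or.inl h)
      · exact Or.inr (Or.inr h)
      · exact absurd (ar_symm hu) h3
  by_cases e02 : z0 = z2
  · exact red_deg3 hF hM hT hv hvr (x := z0) (y := z1) (z := z3) fun u hu => by
      rcases hN u hu with h | h | h | h
      · exact Or.inl h
      · exact Or.inr (Or.inl h)
      · exact Or.inl (h.trans e02.symm)
      · exact Or.inr (Or.inr h)
  by_cases e13 : z1 = z3
  · exact red_deg3 hF hM hT hv hvr (x := z0) (y := z1) (z := z2) fun u hu => by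
      rcases hN u hu with h | h | h | h
      · exact Or.inl h
      · exact Or.inr (Or.inl h)
      · exact Or.inr (Or.inr h)
      · exact Or.inr (Or.inl (h.trans e13.symm))
  have hR : Rg D v z0 z1 z2 z3 :=
    ⟨⟨ne r01, e02, (ne r30).symm, ne h0, ne r12, e13, ne h1, ne r23, ne h2, ne h3⟩, hN, r01, r12,
      r23, r30⟩
  -- there is an in-neighbour and an out-neighbour
  obtain ⟨⟨p, hp⟩, q, hq⟩ := hT.io v hvr hv
  have main : ∀ {y0 y1 y2 y3 : V}, Rg D v y0 y1 y2 y3 → D y0 v → Ar D y1 v → Ar D y2 v →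
      Ar D y3 v → False := by
    intro y0 y1 y2 y3 h d0 g1 g2 g3
    refine red_in hF hM hT hv h d0 g1 g2 g3 ?_
    rcases h.nb q (Or.inl hq) with rfl | rfl | rfl | rfl
    · exact absurd hq (hT.pl.asymm _ _ d0)
    · exact Or.inl hq
    · exact Or.inr (Or.inl hq)
    · exact Or.inr (Or.inr hq)
  rcases hN p (Or.inr hp) with rfl | rfl | rfl | rfl
  · exact main hR hp h1 h2 h3
  · exact main hR.rot hp h2 h3 h0
  · exact main hR.rot.rot hp h3 h0 h1
  · exact main hR.rot.rot.rot hp h0 h1 h2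

end main

end Pool.Agent.H67.G4
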