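import Pool.Agent.H67.G4.Four0

/-!
# Inner real vertices with four neighbours and three consecutive real triangles

`rob41`: `v` inner, its real neighbours `p, q, r, s` with arcs between `p q`, `q r`, `r s`, `p` in,
`s` out. The vertex is not assumed to be good and nothing is known about `s, p`. Then `v` is one of
three words (`X1`, `C4` and its reversal).
-/

set_option autoImplicit false

namespace Pool.Agent.H67.G4

open Relation Pool.Agent.H13.DA Pool.Agent.H72.G4 Pool.Agent.H55.G4 Pool.Agent.H42.G4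
  Pool.Agent.H80.G4

section one

variable {V : Type*} [DecidableEq V] {T : Finset (V × V × V)} {D : V → V → Prop} {a b c : V}

private theorem other' : ∀ t t' : Fin 3, ∃ s : Fin 3, s ≠ t ∧ s ≠ t' := by decide

/-- deleting `v` with an out-neighbour `q`: the orders of the rest can be taken with every
in-neighbour before `q` in one of them -/
theorem del_out (hF : FanT V) (hM : MCw T D a b c) (hT : Ts T D a b c) {v q : V}
    (hv : ¬ Tr a b c v) (hq : D v q)
    (hext : ∀ O : Fin 3 → V → V → Prop, (∀ i, STO (O i)) →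
      (∀ x y, D x y → x ≠ v → y ≠ v → Ex O x y) → (∀ p, D p v → ∃ i, O i p q) → Cuts D v O) :
    False := by
  classical
  have irr : ∀ x, ¬ D x x := fun x h => hT.pl.asymm x x h h
  have hqv : q ≠ v := by
    rintro rfl
    exact irr _ hq
  let N : V → Prop := fun p => D p v ∧ ¬ Ar D p q ∧ ∀ o, o ≠ v → D p o → ¬ D o q
  let A : V → V → Prop := fun x y => x = q ∧ N y
  have hNq : ¬ N q := fun h => hT.pl.asymm _ _ hq h.1
  have hD : ∀ x y, Fil D v A x y → (D x y ∧ x ≠ v ∧ y ≠ v) ∨ (x = q ∧ N y) := by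
    rintro x y (h | h)
    · exact Or.inl h
    · exact Or.inr h
  refine del_fill hF hM hT (v := v) (p := q) (A := A) hv ⟨q, Or.inl hq⟩ (Or.inl hq) ?_ ?_ ?_ ?_
  · rintro x y ⟨rfl, hy, -⟩
    left
    refine ⟨rfl, Or.inr hy, ?_⟩
    rintro rfl
    exact hT.pl.asymm _ _ hq hy
  · intro x y g1 g2
    rcases hD x y g1 with ⟨h1, -, -⟩ | ⟨e1, h1⟩
    · rcases hD y x g2 with ⟨h2, -, -⟩ | ⟨e2, h2⟩
      · exact hT.pl.asymm _ _ h1 h2
      · exact h2.2.1 (Or.inl (e2 ▸ h1))
    · rcases hD y x g2 with ⟨h2, -, -⟩ | ⟨e2, h2⟩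
      · exact h1.2.1 (Or.inl (e1 ▸ h2))
      · exact hNq (e2 ▸ h1)
  · intro x y z g1 g2 g3
    rcases hD x y g1 with ⟨h1, n1, n1'⟩ | ⟨e1, h1⟩
    · rcases hD y z g2 with ⟨h2, n2, n2'⟩ | ⟨e2, h2⟩
      · rcases hD z x g3 with ⟨h3, n3, n3'⟩ | ⟨e3, h3⟩
        · exact hT.pl.tri _ _ _ h1 h2 h3
        · subst e3
          exact h3.2.2 _ n2 h1 h2
      · subst e2
        rcases hD z x g3 with ⟨h3, n3, n3'⟩ | ⟨e3, h3⟩
        · exact h2.2.2 _ n1 h3 h1
        · exact hNq (e3 ▸ h2)
    · subst e1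
      rcases hD y z g2 with ⟨h2, n2, n2'⟩ | ⟨e2, h2⟩
      · rcases hD z x g3 with ⟨h3, n3, n3'⟩ | ⟨e3, h3⟩
        · exact h1.2.2 _ n3 h2 h3
        · exact hNq h3
      · exact hNq (e2 ▸ h1)
  · intro O hO hE
    refine hext O hO (fun x y h hx hy => hE x y (Or.inl ⟨h, hx, hy⟩)) fun z hz => ?_
    have hzv : z ≠ v := by
      rintro rfl
      exact irr _ hz
    by_cases hN : N z
    · obtain ⟨i, h1, -⟩ := hE q z (Or.inr ⟨rfl, hN⟩)
      exact ⟨i, h1⟩
    · by_cases har : Ar D z q
      · rcases har with h | h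
        · obtain ⟨i, h1, h2⟩ := hE z q (Or.inl ⟨h, hzv, hqv⟩)
          obtain ⟨j, hj⟩ := exists_ne i
          exact ⟨j, h2 j hj⟩
        · obtain ⟨i, h1, -⟩ := hE q z (Or.inl ⟨h, hqv, hzv⟩)
          exact ⟨i, h1⟩
      · have hex : ∃ o, o ≠ v ∧ D z o ∧ D o q := by
          by_contra hcon
          push Not at hcon
          exact hN ⟨hz, har, fun o h0 h1 => hcon o h0 h1⟩
        obtain ⟨o, h0, h1, h2⟩ := hex
        obtain ⟨i, -, h3⟩ := hE z o (Or.inl ⟨h1, hzv, h0⟩)
        obtain ⟨j, -, h4⟩ := hE o q (Or.inl ⟨h2, h0, hqv⟩)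
        obtain ⟨s, s1, s2⟩ := other' i j
        exact ⟨s, (hO s).tr _ _ _ (h3 s s1) (h4 s s2)⟩

end one

section cuts

variable {V : Type*} {D : V → V → Prop} {v : V}

/-- `iiio`, `1 > 2` -/
theorem chk_r2 : chk [(0,0,0,0),(0,0,0,0),(2,0,0,0),(4,0,3,0)] [St.free 7 8] = true := by
  decide +kernel

/-- `iiio`, `0 > 1`, `2 > 1` -/
theorem chk_r9 : chk [(0,0,0,0),(1,0,0,0),(0,2,0,0),(4,0,3,0)] [St.free 7 8] = true := by
  decide +kernel

/-- `iioo`, `0 > 1`, `1 > 2` -/
theorem chk_r3 : chk [(0,0,0,0),(1,0,0,0),(2,0,0,0),(0,0,3,0)] [St.free 3 12] = true := by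
  decide +kernel

/-- `iooo`, `0 > 1`, `1 > 2` -/
theorem chk_r4 : chk [(0,0,0,0),(1,0,0,0),(2,0,0,0),(0,0,1,0)] [St.free 1 14] = true := by
  decide +kernel

/-- `ioio` -/
theorem chk_r5 : chk [(0,0,0,0),(1,0,0,0),(0,2,0,0),(4,0,1,0)] [St.free 5 10] = true := by
  decide +kernel

private lemma lt3 {m x : ℕ} (h : m < 8) (hx : m.testBit x = true) : x < 3 := tb_lt (N := 3) h hx
private lemma lt0 {x : ℕ} {p : Prop} (hx : (0 : ℕ).testBit x = true) : p := by simp at hx

theorem cuts_r2 {z0 z1 z2 z3 : V} (hd : Ds z0 z1 z2 z3 v) {O : Fin 3 → V → V → Prop}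
    (hO : ∀ i, STO (O i)) (e12 : Ex O z1 z2) (e23 : Ex O z2 z3) (u03 : ∃ i, O i z0 z3)
    (u13 : ∃ i, O i z1 z3) (hin : ∀ x, D x v → x = z0 ∨ x = z1 ∨ x = z2)
    (hout : ∀ x, D v x → x = z3) : Cuts D v O := by
  refine cuts_gen chk_r2 hd hO ?_ ?_ ?_
  · refine ⟨fun x hx => lt0 hx, fun x hx => lt0 hx, fun x hx => lt0 hx, fun x hx => lt0 hx,
      fun x hx => lt0 hx, fun x hx => lt0 hx, fun x hx => lt0 hx, fun x hx => lt0 hx,
      fun x hx => ?_, fun x hx => lt0 hx, fun x hx => lt0 hx, fun x hx => lt0 hx,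
      fun x hx => ?_, fun x hx => lt0 hx, fun x hx => ?_, fun x hx => lt0 hx, trivial⟩
    · have h := lt3 (by norm_num) hx
      interval_cases x
      · exact absurd hx (by decide)
      · exact ⟨by norm_num, e12⟩
      · exact absurd hx (by decide)
    · have h := lt3 (by norm_num) hx
      interval_cases x
      · exact absurd hx (by decide)
      · exact absurd hx (by decide)
      · exact ⟨by norm_num, e23⟩
    · have h := lt3 (by norm_num) hx
      interval_cases x
      · exact ⟨by norm_num, u03⟩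
      · exact ⟨by norm_num, u13⟩
      · exact absurd hx (by decide)
  · intro x hx
    rcases hin x hx with h | h | h
    · exact ⟨0, by decide, by decide, h⟩
    · exact ⟨1, by decide, by decide, h⟩
    · exact ⟨2, by decide, by decide, h⟩
  · intro x hx
    exact ⟨3, by decide, by decide, hout x hx⟩

theorem cuts_r9 {z0 z1 z2 z3 : V} (hd : Ds z0 z1 z2 z3 v) {O : Fin 3 → V → V → Prop}
    (hO : ∀ i, STO (O i)) (e01 : Ex O z0 z1) (e21 : Ex O z2 z1) (e23 : Ex O z2 z3)
    (u03 : ∃ i, O i z0 z3) (u13 : ∃ i, O i z1 z3)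
    (hin : ∀ x, D x v → x = z0 ∨ x = z1 ∨ x = z2) (hout : ∀ x, D v x → x = z3) :
    Cuts D v O := by
  refine cuts_gen chk_r9 hd hO ?_ ?_ ?_
  · refine ⟨fun x hx => lt0 hx, fun x hx => lt0 hx, fun x hx => lt0 hx, fun x hx => lt0 hx,
      fun x hx => ?_, fun x hx => lt0 hx, fun x hx => lt0 hx, fun x hx => lt0 hx,
      fun x hx => lt0 hx, fun x hx => ?_, fun x hx => lt0 hx, fun x hx => lt0 hx,
      fun x hx => ?_, fun x hx => lt0 hx, fun x hx => ?_, fun x hx => lt0 hx, trivial⟩
    · have h := lt3 (by norm_num) hx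
      interval_cases x
      · exact ⟨by norm_num, e01⟩
      · exact absurd hx (by decide)
      · exact absurd hx (by decide)
    · have h := lt3 (by norm_num) hx
      interval_cases x
      · exact absurd hx (by decide)
      · exact ⟨by norm_num, e21⟩
      · exact absurd hx (by decide)
    · have h := lt3 (by norm_num) hx
      interval_cases x
      · exact absurd hx (by decide)
      · exact absurd hx (by decide)
      · exact ⟨by norm_num, e23⟩
    · have h := lt3 (by norm_num) hx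
      interval_cases x
      · exact ⟨by norm_num, u03⟩
      · exact ⟨by norm_num, u13⟩
      · exact absurd hx (by decide)
  · intro x hx
    rcases hin x hx with h | h | h
    · exact ⟨0, by decide, by decide, h⟩
    · exact ⟨1, by decide, by decide, h⟩
    · exact ⟨2, by decide, by decide, h⟩
  · intro x hx
    exact ⟨3, by decide, by decide, hout x hx⟩

theorem cuts_r3 {z0 z1 z2 z3 : V} (hd : Ds z0 z1 z2 z3 v) {O : Fin 3 → V → V → Prop}
    (hO : ∀ i, STO (O i)) (e01 : Ex O z0 z1) (e12 : Ex O z1 z2) (u03 : ∃ i, O i z0 z3)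
    (u13 : ∃ i, O i z1 z3) (hin : ∀ x, D x v → x = z0 ∨ x = z1)
    (hout : ∀ x, D v x → x = z2 ∨ x = z3) : Cuts D v O := by
  refine cuts_gen chk_r3 hd hO ?_ ?_ ?_
  · refine ⟨fun x hx => lt0 hx, fun x hx => lt0 hx, fun x hx => lt0 hx, fun x hx => lt0 hx,
      fun x hx => ?_, fun x hx => lt0 hx, fun x hx => lt0 hx, fun x hx => lt0 hx,
      fun x hx => ?_, fun x hx => lt0 hx, fun x hx => lt0 hx, fun x hx => lt0 hx,
      fun x hx => lt0 hx, fun x hx => lt0 hx, fun x hx => ?_, fun x hx => lt0 hx, trivial⟩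
    · have h := lt3 (by norm_num) hx
      interval_cases x
      · exact ⟨by norm_num, e01⟩
      · exact absurd hx (by decide)
      · exact absurd hx (by decide)
    · have h := lt3 (by norm_num) hx
      interval_cases x
      · exact absurd hx (by decide)
      · exact ⟨by norm_num, e12⟩
      · exact absurd hx (by decide)
    · have h := lt3 (by norm_num) hx
      interval_cases x
      · exact ⟨by norm_num, u03⟩
      · exact ⟨by norm_num, u13⟩
      · exact absurd hx (by decide)
  · intro x hx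
    rcases hin x hx with h | h
    · exact ⟨0, by decide, by decide, h⟩
    · exact ⟨1, by decide, by decide, h⟩
  · intro x hx
    rcases hout x hx with h | h
    · exact ⟨2, by decide, by decide, h⟩
    · exact ⟨3, by decide, by decide, h⟩

theorem cuts_r4 {z0 z1 z2 z3 : V} (hd : Ds z0 z1 z2 z3 v) {O : Fin 3 → V → V → Prop}
    (hO : ∀ i, STO (O i)) (e01 : Ex O z0 z1) (e12 : Ex O z1 z2) (u03 : ∃ i, O i z0 z3)
    (hin : ∀ x, D x v → x = z0) (hout : ∀ x, D v x → x = z1 ∨ x = z2 ∨ x = z3) :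
    Cuts D v O := by
  refine cuts_gen chk_r4 hd hO ?_ ?_ ?_
  · refine ⟨fun x hx => lt0 hx, fun x hx => lt0 hx, fun x hx => lt0 hx, fun x hx => lt0 hx,
      fun x hx => ?_, fun x hx => lt0 hx, fun x hx => lt0 hx, fun x hx => lt0 hx,
      fun x hx => ?_, fun x hx => lt0 hx, fun x hx => lt0 hx, fun x hx => lt0 hx,
      fun x hx => lt0 hx, fun x hx => lt0 hx, fun x hx => ?_, fun x hx => lt0 hx, trivial⟩
    · have h := lt3 (by norm_num) hx
      interval_cases x
      · exact ⟨by norm_num, e01⟩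
      · exact absurd hx (by decide)
      · exact absurd hx (by decide)
    · have h := lt3 (by norm_num) hx
      interval_cases x
      · exact absurd hx (by decide)
      · exact ⟨by norm_num, e12⟩
      · exact absurd hx (by decide)
    · have h := lt3 (by norm_num) hx
      interval_cases x
      · exact ⟨by norm_num, u03⟩
      · exact absurd hx (by decide)
      · exact absurd hx (by decide)
  · intro x hx
    exact ⟨0, by decide, by decide, hin x hx⟩
  · intro x hx
    rcases hout x hx with h | h | h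
    · exact ⟨1, by decide, by decide, h⟩
    · exact ⟨2, by decide, by decide, h⟩
    · exact ⟨3, by decide, by decide, h⟩

theorem cuts_r5 {z0 z1 z2 z3 : V} (hd : Ds z0 z1 z2 z3 v) {O : Fin 3 → V → V → Prop}
    (hO : ∀ i, STO (O i)) (e01 : Ex O z0 z1) (e21 : Ex O z2 z1) (e23 : Ex O z2 z3)
    (u03 : ∃ i, O i z0 z3) (hin : ∀ x, D x v → x = z0 ∨ x = z2)
    (hout : ∀ x, D v x → x = z1 ∨ x = z3) : Cuts D v O := by
  refine cuts_gen chk_r5 hd hO ?_ ?_ ?_
  · refine ⟨fun x hx => lt0 hx, fun x hx => lt0 hx, fun x hx => lt0 hx, fun x hx => lt0 hx,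
      fun x hx => ?_, fun x hx => lt0 hx, fun x hx => lt0 hx, fun x hx => lt0 hx,
      fun x hx => lt0 hx, fun x hx => ?_, fun x hx => lt0 hx, fun x hx => lt0 hx,
      fun x hx => ?_, fun x hx => lt0 hx, fun x hx => ?_, fun x hx => lt0 hx, trivial⟩
    · have h := lt3 (by norm_num) hx
      interval_cases x
      · exact ⟨by norm_num, e01⟩
      · exact absurd hx (by decide)
      · exact absurd hx (by decide)
    · have h := lt3 (by norm_num) hx
      interval_cases x
      · exact absurd hx (by decide)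
      · exact ⟨by norm_num, e21⟩
      · exact absurd hx (by decide)
    · have h := lt3 (by norm_num) hx
      interval_cases x
      · exact absurd hx (by decide)
      · exact absurd hx (by decide)
      · exact ⟨by norm_num, e23⟩
    · have h := lt3 (by norm_num) hx
      interval_cases x
      · exact ⟨by norm_num, u03⟩
      · exact absurd hx (by decide)
      · exact absurd hx (by decide)
  · intro x hx
    rcases hin x hx with h | h
    · exact ⟨0, by decide, by decide, h⟩
    · exact ⟨2, by decide, by decide, h⟩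
  · intro x hx
    rcases hout x hx with h | h
    · exact ⟨1, by decide, by decide, h⟩
    · exact ⟨3, by decide, by decide, h⟩

theorem Ds.mir {z0 z1 z2 z3 : V} (h : Ds z0 z1 z2 z3 v) : Ds z3 z2 z1 z0 v :=
  ⟨h.h23.symm, h.h13.symm, h.h03.symm, h.h3, h.h12.symm, h.h02.symm, h.h2, h.h01.symm, h.h1, h.h0⟩

end cuts

section main

variable {V : Type*} [DecidableEq V] {T : Finset (V × V × V)} {D : V → V → Prop} {a b c : V}

/-- the reducible words with the star at `s` -/
private theorem rob_a (hF : FanT V) (hM : MCw T D a b c) (hT : Ts T D a b c) {v p q r s : V}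
    (hv : ¬ Tr a b c v) (hd : Ds p q r s v)
    (hN : ∀ u, Ar D v u → u = p ∨ u = q ∨ u = r ∨ u = s) (dp : D p v) (ds : D v s)
    (r1 : Ar D p q) (r2 : Ar D q r) (r3 : Ar D r s)
    (h : (D q v ∧ D r v ∧ (D q r ∨ (D p q ∧ D r q))) ∨ (D q v ∧ D v r ∧ D p q) ∨
      (D v q ∧ D v r ∧ D q r) ∨ (D v q ∧ D r v)) : False := by
  have as := hT.pl.asymm
  have fo : ∀ {x y : V}, D x v → D v y → Ar D x y → D x y := fun hx hy k =>
    k.resolve_right fun k' => hT.pl.tri _ _ _ hx hy k'
  refine del_out hF hM hT hv ds fun O hO hE hu => ?_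
  rcases h with ⟨dq, dr, h⟩ | ⟨dq, dr, h⟩ | ⟨dq, dr, h⟩ | ⟨dq, dr⟩
  · have e23 := hE _ _ (fo dr ds r3) hd.h2 hd.h3
    have hin : ∀ x, D x v → x = p ∨ x = q ∨ x = r := by
      intro x hx
      rcases hN x (Or.inr hx) with rfl | rfl | rfl | rfl
      · exact Or.inl rfl
      · exact Or.inr (Or.inl rfl)
      · exact Or.inr (Or.inr rfl)
      · exact absurd hx (as _ _ ds)
    have hout : ∀ x, D v x → x = s := by
      intro x hx
      rcases hN x (Or.inl hx) with rfl | rfl | rfl | rfl
      · exact absurd hx (as _ _ dp)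
      · exact absurd hx (as _ _ dq)
      · exact absurd hx (as _ _ dr)
      · rfl
    rcases h with h | ⟨h1, h2⟩
    · exact cuts_r2 hd hO (hE _ _ h hd.h1 hd.h2) e23 (hu p dp) (hu q dq) hin hout
    · exact cuts_r9 hd hO (hE _ _ h1 hd.h0 hd.h1) (hE _ _ h2 hd.h2 hd.h1) e23 (hu p dp)
        (hu q dq) hin hout
  · have e12 := hE _ _ (fo dq dr r2) hd.h1 hd.h2
    refine cuts_r3 hd hO (hE _ _ h hd.h0 hd.h1) e12 (hu p dp) (hu q dq) ?_ ?_
    · intro x hx
      rcases hN x (Or.inr hx) with rfl | rfl | rfl | rfl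
      · exact Or.inl rfl
      · exact Or.inr rfl
      · exact absurd hx (as _ _ dr)
      · exact absurd hx (as _ _ ds)
    · intro x hx
      rcases hN x (Or.inl hx) with rfl | rfl | rfl | rfl
      · exact absurd hx (as _ _ dp)
      · exact absurd hx (as _ _ dq)
      · exact Or.inl rfl
      · exact Or.inr rfl
  · have e01 := hE _ _ (fo dp dq r1) hd.h0 hd.h1
    refine cuts_r4 hd hO e01 (hE _ _ h hd.h1 hd.h2) (hu p dp) ?_ ?_
    · intro x hx
      rcases hN x (Or.inr hx) with rfl | rfl | rfl | rfl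
      · rfl
      · exact absurd hx (as _ _ dq)
      · exact absurd hx (as _ _ dr)
      · exact absurd hx (as _ _ ds)
    · intro x hx
      rcases hN x (Or.inl hx) with rfl | rfl | rfl | rfl
      · exact absurd hx (as _ _ dp)
      · exact Or.inl rfl
      · exact Or.inr (Or.inl rfl)
      · exact Or.inr (Or.inr rfl)
  · have e01 := hE _ _ (fo dp dq r1) hd.h0 hd.h1
    have e21 := hE _ _ (fo dr dq (ar_symm r2)) hd.h2 hd.h1
    have e23 := hE _ _ (fo dr ds r3) hd.h2 hd.h3
    refine cuts_r5 hd hO e01 e21 e23 (hu p dp) ?_ ?_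
    · intro x hx
      rcases hN x (Or.inr hx) with rfl | rfl | rfl | rfl
      · exact Or.inl rfl
      · exact absurd hx (as _ _ dq)
      · exact Or.inr rfl
      · exact absurd hx (as _ _ ds)
    · intro x hx
      rcases hN x (Or.inl hx) with rfl | rfl | rfl | rfl
      · exact absurd hx (as _ _ dp)
      · exact Or.inl rfl
      · exact absurd hx (as _ _ dr)
      · exact Or.inr rfl

/-- **Robust words**: an inner real vertex with the neighbours `p, q, r, s`, `p` in, `s` out, arcs
`p q`, `q r`, `r s` is one of three words. -/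
theorem rob41 (hF : FanT V) (hM : MCw T D a b c) (hT : Ts T D a b c) {v p q r s : V}
    (hv : ¬ Tr a b c v) (hd : Ds p q r s v)
    (hN : ∀ u, Ar D v u → u = p ∨ u = q ∨ u = r ∨ u = s) (dp : D p v) (ds : D v s)
    (dq : Ar D q v) (dr : Ar D r v) (r1 : Ar D p q) (r2 : Ar D q r) (r3 : Ar D r s) :
    (D q v ∧ D v r ∧ D q p ∧ D s r) ∨ (D v q ∧ D v r ∧ D r q ∧ D s r) ∨
      (D q v ∧ D r v ∧ D q p ∧ D r q) := by
  have A := fun h => rob_a hF hM hT hv hd hN dp ds r1 r2 r3 h
  have B := fun h => rob_a (D := Rev D) hF (mcw_rev.2 hM) (ts_rev.2 hT) (v := v) (p := s)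
    (q := r) (r := q) (s := p) hv hd.mir (fun u hu => by
      have := hN u (ar_rev.1 hu)
      tauto) ds dp (ar_rev.2 (ar_symm r3)) (ar_rev.2 (ar_symm r2)) (ar_rev.2 (ar_symm r1)) h
  have B' : ((D v r ∧ D v q ∧ (D q r ∨ (D r s ∧ D r q))) ∨ (D v r ∧ D q v ∧ D r s) ∨
      (D r v ∧ D q v ∧ D q r) ∨ (D r v ∧ D v q)) → False := B
  rcases dq with iq | oq
  · rcases dr with ir | or'
    · -- i i i o
      right; right
      refine ⟨iq, ir, ?_, ?_⟩
      · rcases r1 with k | k
        · exfalso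
          rcases r2 with k2 | k2
          · exact A (Or.inl ⟨iq, ir, Or.inl k2⟩)
          · exact A (Or.inl ⟨iq, ir, Or.inr ⟨k, k2⟩⟩)
        · exact k
      · rcases r2 with k2 | k2
        · exact (A (Or.inl ⟨iq, ir, Or.inl k2⟩)).elim
        · exact k2
    · -- i i o o
      left
      refine ⟨iq, or', ?_, ?_⟩
      · rcases r1 with k | k
        · exact (A (Or.inr (Or.inl ⟨iq, or', k⟩))).elim
        · exact k
      · rcases r3 with k | k
        · exact (B' (Or.inr (Or.inl ⟨or', iq, k⟩))).elim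
        · exact k
  · rcases dr with ir | or'
    · exact (A (Or.inr (Or.inr (Or.inr ⟨oq, ir⟩)))).elim
    · -- i o o o
      right; left
      refine ⟨oq, or', ?_, ?_⟩
      · rcases r2 with k2 | k2
        · exact (A (Or.inr (Or.inr (Or.inl ⟨oq, or', k2⟩)))).elim
        · exact k2
      · rcases r3 with k | k
        · exfalso
          rcases r2 with k2 | k2
          · exact A (Or.inr (Or.inr (Or.inl ⟨oq, or', k2⟩)))
          · exact B' (Or.inl ⟨or', oq, Or.inr ⟨k, k2⟩⟩)
        · exact k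

end main

end Pool.Agent.H67.G4
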